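import Pool.Agent.D0H19.Bend.Conc

/-!
# The forced quadrilateral with both diagonals
-/

namespace Pool.Agent.D0H19.Bend

variable {ι : Type*} {d : ι → ℝ × ℝ}

theorem oneD_ne {x l1 h1 l2 h2 m1 k1 m2 k2 : ℝ} (a1 : l1 ≤ x) (a1' : x ≤ h1) (a2 : l2 ≤ x)
    (a2' : x ≤ h2) (b1 : m1 ≤ x) (b1' : x ≤ k1) (b2 : m2 ≤ x) (b2' : x ≤ k2)
    (t1 : l1 < h1) (t2 : l2 < h2) (t3 : m1 < k1) (t4 : m2 < k2)
    (n1 : h2 ≤ l1 ∨ h1 ≤ l2) (n2 : k2 ≤ m1 ∨ k1 ≤ m2) (n3 : k1 ≤ l2 ∨ h2 ≤ m1)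
    (o : l1 < k2) (o' : m2 < h1) : False := by
  rcases n1 with n1 | n1 <;> rcases n2 with n2 | n2 <;> rcases n3 with n3 | n3 <;> linarith

/-- opposite leaves force different bend points -/
theorem z_ne (hd : ∀ i j, i ≠ j → phi (d i) (d j) ≠ 0) {a b b' : Vee d} (g : Gad a b)
    (g' : Gad a b') (hbb : ¬ Adj b b') {c c' e e' : Vee d} {p q p' q' : Fin 2}
    (hc : Typ a b c p q) (hc' : Typ a b c' p q) (he : Typ a b' e p' q')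
    (he' : Typ a b' e' p' q') (v : Adj c e') (n1 : ¬ Adj c c') (n2 : ¬ Adj e e')
    (n3 : ¬ Adj c' e) : c.z ≠ e.z := by
  intro hz
  obtain ⟨k1, l2, v⟩ := v
  obtain ⟨hp, f1, f2⟩ := line_adj hd g g' hbb hc he' v
  subst hp
  have zc := z_eq hd (g.ab _ _) hc hc'
  have ze := z_eq hd (g'.ab _ _) he he'
  obtain ⟨k2, -, g2, -⟩ := hc'
  obtain ⟨l1, -, g1, -⟩ := he
  have o1 := (c.on k1).2
  have o2 := (c'.on k2).2
  have o3 := (e.on l1).2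
  have o4 := (e'.on l2).2
  rw [f1.1] at o1
  rw [g2.1, ← zc] at o2
  rw [g1.1, ← hz] at o3
  rw [f2.1, ← ze, ← hz] at o4
  exact oneD_ne o1.1 o1.2 o2.1 o2.2 o3.1 o3.2 o4.1 o4.2 (c.bar k1).lt (c'.bar k2).lt
    (e.bar l1).lt (e'.bar l2).lt
    (not_ov (fun h => n1 ⟨_, _, h⟩) (f1.trans g2.sl.symm))
    (not_ov (fun h => n2 ⟨_, _, h⟩) (g1.sl.trans f2.symm))
    (not_ov (fun h => n3 ⟨_, _, h⟩) (g2.sl.trans g1.sl.symm))
    v.2.2.1 v.2.2.2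

/-- at a common bend point, the lines of `a` and `a'` have different directions -/
theorem dir_ne (hd : ∀ i j, i ≠ j → phi (d i) (d j) ≠ 0) {a a' b : Vee d} (g : Gad a b)
    (g' : Gad a' b) (haa : ¬ Adj a a') {c e : Vee d} {p q p' q' : Fin 2}
    (hc : Typ a b c p q) (he : Typ a' b e p' q') (hz : c.z = e.z) :
    (a.bar p).i ≠ (a'.bar p').i := by
  intro hi
  refine noshare hd g.symm g'.symm haa p p' ⟨hi, ?_⟩
  rw [← hc.phi_a, ← he.phi_a, hz, hi]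

theorem exists_smul {u w : ℝ × ℝ} (hu : u ≠ 0) (h : phi u w = 0) : ∃ s : ℝ, w = s • u := by
  have hu' : u.1 ^ 2 + u.2 ^ 2 ≠ 0 := by
    intro hc
    apply hu
    have a1 : u.1 = 0 := by nlinarith [sq_nonneg u.1, sq_nonneg u.2]
    have a2 : u.2 = 0 := by nlinarith [sq_nonneg u.1, sq_nonneg u.2]
    exact Prod.ext a1 a2
  refine ⟨psi u w / (u.1 ^ 2 + u.2 ^ 2), ?_⟩
  simp only [phi, psi] at *
  apply Prod.ext
  · simp only [Prod.smul_fst, smul_eq_mul]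
    field_simp
    linear_combination (-u.2) * h
  · simp only [Prod.smul_snd, smul_eq_mul]
    field_simp
    linear_combination (u.1) * h

/-- The algebraic relation forced by four points whose six connecting lines have prescribed
directions. -/
theorem relation {X X1 X2 Y Y1 Y2 P1 P2 P3 P4 : ℝ × ℝ} (hX : X ≠ 0) (hY : Y ≠ 0) (hX2 : X2 ≠ 0)
    (n1 : phi Y1 X ≠ 0) (n3 : phi Y2 X ≠ 0)
    (h13 : phi X P1 = phi X P3) (h24 : phi X1 P2 = phi X1 P4) (h12 : phi X2 P1 = phi X2 P2)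
    (h14 : phi Y P1 = phi Y P4) (h23 : phi Y1 P2 = phi Y1 P3) (h34 : phi Y2 P3 = phi Y2 P4)
    (hne : P1 ≠ P3) :
    phi X1 X2 * phi Y2 Y * phi Y1 X = phi X1 Y * phi Y2 X * phi Y1 X2 := by
  obtain ⟨s, hs⟩ := exists_smul (w := P3 - P1) hX (by rw [phi_sub]; linarith)
  obtain ⟨t, ht⟩ := exists_smul (w := P4 - P1) hY (by rw [phi_sub]; linarith)
  obtain ⟨r, hr⟩ := exists_smul (w := P2 - P1) hX2 (by rw [phi_sub]; linarith)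
  have e3 : P3 = P1 + s • X := by rw [← hs]; abel
  have e4 : P4 = P1 + t • Y := by rw [← ht]; abel
  have e2 : P2 = P1 + r • X2 := by rw [← hr]; abel
  have hs0 : s ≠ 0 := by
    intro h
    apply hne
    rw [e3, h, zero_smul, add_zero]
  have r1 : r * phi Y1 X2 = s * phi Y1 X := by
    rw [e2, e3] at h23
    simp only [phi, Prod.fst_add, Prod.snd_add, Prod.smul_fst, Prod.smul_snd, smul_eq_mul] at *
    linarith
  have r2 : r * phi X1 X2 = t * phi X1 Y := by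
    rw [e2, e4] at h24
    simp only [phi, Prod.fst_add, Prod.snd_add, Prod.smul_fst, Prod.smul_snd, smul_eq_mul] at *
    linarith
  have r3 : t * phi Y2 Y = s * phi Y2 X := by
    rw [e3, e4] at h34
    simp only [phi, Prod.fst_add, Prod.snd_add, Prod.smul_fst, Prod.smul_snd, smul_eq_mul] at *
    linarith
  have hr0 : r ≠ 0 := by
    intro h
    rw [h, zero_mul] at r1
    exact mul_ne_zero hs0 n1 r1.symm
  have ht0 : t ≠ 0 := by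
    intro h
    rw [h, zero_mul] at r3
    exact mul_ne_zero hs0 n3 r3.symm
  have key : (r * t * s) * (phi X1 X2 * phi Y2 Y * phi Y1 X) =
      (r * t * s) * (phi X1 Y * phi Y2 X * phi Y1 X2) := by
    calc (r * t * s) * (phi X1 X2 * phi Y2 Y * phi Y1 X)
        = (r * phi X1 X2) * (t * phi Y2 Y) * (s * phi Y1 X) := by ring
      _ = (t * phi X1 Y) * (s * phi Y2 X) * (r * phi Y1 X2) := by rw [r1, r2, r3]
      _ = _ := by ring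
  exact mul_left_cancel₀ (mul_ne_zero (mul_ne_zero hr0 ht0) hs0) key

/-- **Main lower bound lemma.** -/
theorem no_config (hd0 : ∀ i, d i ≠ 0) (hd : ∀ i j, i ≠ j → phi (d i) (d j) ≠ 0)
    (hrel : ∀ X X1 X2 Y Y1 Y2 : ι, X ≠ X2 → X1 ≠ X2 → Y ≠ Y2 → Y1 ≠ Y2 →
      X ≠ Y → X ≠ Y1 → X ≠ Y2 → X1 ≠ Y → X1 ≠ Y1 → X1 ≠ Y2 → X2 ≠ Y → X2 ≠ Y1 → X2 ≠ Y2 →
      phi (d X1) (d X2) * phi (d Y2) (d Y) * phi (d Y1) (d X) ≠
        phi (d X1) (d Y) * phi (d Y2) (d X) * phi (d Y1) (d X2))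
    (a b : Fin 3 → Vee d) (c : Fin 3 → Fin 3 → Fin 10 → Vee d)
    (haa : ∀ i j, i ≠ j → ¬ Adj (a i) (a j)) (hbb : ∀ i j, i ≠ j → ¬ Adj (b i) (b j))
    (hab : ∀ i j, ¬ Adj (a i) (b j))
    (ca : ∀ i j k, Adj (c i j k) (a i)) (cb : ∀ i j k, Adj (c i j k) (b j))
    (ind : ∀ i j k l, Indep k l → ¬ Adj (c i j k) (c i j l))
    (c4 : ∀ i j, ∀ k l : Fin 10, k.val < 2 → 2 ≤ l.val → l.val < 4 →
      Adj (c i j k) (c i j l))
    (con : ∀ t ∈ ([((0, 0), (2, 0)), ((1, 1), (2, 1)), ((0, 1), (0, 2)), ((1, 0), (1, 2))] :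
      List ((Fin 3 × Fin 3) × (Fin 3 × Fin 3))),
      Adj (c t.1.1 t.1.2 0) (c t.2.1 t.2.2 0) ∧ Adj (c t.1.1 t.1.2 1) (c t.2.1 t.2.2 1) ∧
      ¬ Adj (c t.1.1 t.1.2 0) (c t.2.1 t.2.2 1) ∧ ¬ Adj (c t.1.1 t.1.2 1) (c t.2.1 t.2.2 0))
    (l1 : Adj (c 0 0 0) (c 0 1 1)) (l2 : Adj (c 1 0 0) (c 1 1 1)) (l3 : Adj (c 2 0 0) (c 2 1 1))
    (l4 : Adj (c 0 0 0) (c 1 0 1)) (l5 : Adj (c 0 1 0) (c 1 1 1)) (l6 : Adj (c 0 2 1) (c 1 2 0))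
    (l7 : ¬ Adj (c 0 0 1) (c 0 1 0)) : False := by
  have G : ∀ i j, Gad (a i) (b j) := fun i j =>
    (gadget hd (hab i j) (c i j) (ca i j) (cb i j) (ind i j) (c4 i j)).1
  have hex : ∀ i j, ∃ t : Fin 2 × Fin 2, Typ (a i) (b j) (c i j 0) t.1 t.2 ∧
      Typ (a i) (b j) (c i j 1) t.1 t.2 := by
    intro i j
    obtain ⟨p, q, h⟩ :=
      (gadget hd (hab i j) (c i j) (ca i j) (cb i j) (ind i j) (c4 i j)).2
    exact ⟨(p, q), h⟩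
  choose T hT0 hT1 using hex
  have n01 : ∀ i j, ¬ Adj (c i j 0) (c i j 1) := fun i j => ind i j 0 1 (by decide)
  obtain ⟨u1, u2, u3, u4⟩ := con ((0, 0), (2, 0)) (by simp)
  obtain ⟨v1, v2, v3, v4⟩ := con ((1, 1), (2, 1)) (by simp)
  obtain ⟨w1, w2, w3, w4⟩ := con ((0, 1), (0, 2)) (by simp)
  obtain ⟨x1, x2, x3, x4⟩ := con ((1, 0), (1, 2)) (by simp)
  -- concurrencies
  obtain ⟨q1, z1⟩ := conc hd0 hd (G 0 0).symm (G 2 0).symm (haa 0 2 (by decide))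
    (hT0 0 0).symm (hT1 0 0).symm (hT0 2 0).symm (hT1 2 0).symm u1 u2 u3 u4 (n01 0 0)
  obtain ⟨q2, z2⟩ := conc hd0 hd (G 1 1).symm (G 2 1).symm (haa 1 2 (by decide))
    (hT0 1 1).symm (hT1 1 1).symm (hT0 2 1).symm (hT1 2 1).symm v1 v2 v3 v4 (n01 1 1)
  obtain ⟨p3, z3⟩ := conc hd0 hd (G 0 1) (G 0 2) (hbb 1 2 (by decide))
    (hT0 0 1) (hT1 0 1) (hT0 0 2) (hT1 0 2) w1 w2 w3 w4 (n01 0 1)
  obtain ⟨p4, z4⟩ := conc hd0 hd (G 1 0) (G 1 2) (hbb 0 2 (by decide))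
    (hT0 1 0) (hT1 1 0) (hT0 1 2) (hT1 1 2) x1 x2 x3 x4 (n01 1 0)
  -- common lines
  have m1 := line_adj' hd (G 0 0) (G 0 1) (hbb 0 1 (by decide)) (hT0 0 0) (hT1 0 1) l1
  have m2 := line_adj' hd (G 1 0) (G 1 1) (hbb 0 1 (by decide)) (hT0 1 0) (hT1 1 1) l2
  have m3 := line_adj' hd (G 2 0) (G 2 1) (hbb 0 1 (by decide)) (hT0 2 0) (hT1 2 1) l3
  have m4 := line_adj' hd (G 0 0).symm (G 1 0).symm (haa 0 1 (by decide)) (hT0 0 0).symm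
    (hT1 1 0).symm l4
  have m5 := line_adj' hd (G 0 1).symm (G 1 1).symm (haa 0 1 (by decide)) (hT0 0 1).symm
    (hT1 1 1).symm l5
  have m6 := line_adj' hd (G 0 2).symm (G 1 2).symm (haa 0 1 (by decide)) (hT1 0 2).symm
    (hT0 1 2).symm l6
  have hne := z_ne hd (G 0 0) (G 0 1) (hbb 0 1 (by decide)) (hT0 0 0) (hT1 0 0) (hT0 0 1)
    (hT1 0 1) l1 (n01 0 0) (n01 0 1) l7
  -- directions
  have e1 := dir_ne hd (G 0 0) (G 2 0) (haa 0 2 (by decide)) (hT0 0 0) (hT0 2 0) z1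
  have e2 := dir_ne hd (G 1 1) (G 2 1) (haa 1 2 (by decide)) (hT0 1 1) (hT0 2 1) z2
  have e3 := dir_ne hd (G 0 1).symm (G 0 2).symm (hbb 1 2 (by decide)) (hT0 0 1).symm
    (hT0 0 2).symm z3
  have e4 := dir_ne hd (G 1 0).symm (G 1 2).symm (hbb 0 2 (by decide)) (hT0 1 0).symm
    (hT0 1 2).symm z4
  rw [← m3] at e2
  rw [m5] at e3
  rw [← m6, ← m4] at e4
  refine hrel ((a 0).bar (T 0 0).1).i ((a 1).bar (T 1 1).1).i ((a 2).bar (T 2 0).1).i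
    ((b 0).bar (T 0 0).2).i ((b 1).bar (T 1 1).2).i ((b 2).bar (T 0 2).2).i
    e1 e2 e4 e3 ((G 0 0).ab _ _) ((G 0 1).ab _ _) ((G 0 2).ab _ _) ((G 1 0).ab _ _)
    ((G 1 1).ab _ _) ((G 1 2).ab _ _) ((G 2 0).ab _ _) ((G 2 1).ab _ _) ((G 2 2).ab _ _) ?_
  refine relation (P1 := (c 0 0 0).z) (P2 := (c 1 1 0).z) (P3 := (c 0 1 0).z)
    (P4 := (c 1 0 0).z) (hd0 _) (hd0 _) (hd0 _) (hd _ _ ((G 0 1).ab _ _).symm)
    (hd _ _ ((G 0 2).ab _ _).symm) ?_ ?_ ?_ ?_ ?_ ?_ hne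
  · rw [(hT0 0 0).phi_a, m1, (hT0 0 1).phi_a]
  · rw [(hT0 1 1).phi_a, ← m2, (hT0 1 0).phi_a]
  · rw [z1, z2, (hT0 2 0).phi_a, m3, (hT0 2 1).phi_a]
  · rw [(hT0 0 0).phi_b, m4, (hT0 1 0).phi_b]
  · rw [(hT0 1 1).phi_b, ← m5, (hT0 0 1).phi_b]
  · rw [z3, z4, (hT0 0 2).phi_b, m6, (hT0 1 2).phi_b]

end Pool.Agent.D0H19.Bend
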