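import Pool.Agent.D0H19.Bend.Gadget

/-!
# Forcing common bend points and common lines
-/

namespace Pool.Agent.D0H19.Bend

variable {ι : Type*} {d : ι → ℝ × ℝ}

theorem fin2_cases {k l m : Fin 2} (h : k ≠ l) : m = k ∨ m = l := by
  revert k l m; decide

/-- each bar of a leaf lies on the line of `a` or on the line of `b` -/
theorem Typ.bars {a b c : Vee d} (g : Gad a b) {p q : Fin 2} (h : Typ a b c p q) (m : Fin 2) :
    SL (c.bar m) (a.bar p) ∨ SL (c.bar m) (b.bar q) := by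
  obtain ⟨k, l, h1, h2⟩ := h
  have hkl : k ≠ l := by
    intro e
    subst e
    exact g.ab p q (h1.1.symm.trans h2.1)
  rcases fin2_cases (m := m) hkl with e | e
  · subst e; exact Or.inl h1.sl
  · subst e; exact Or.inr h2.sl

theorem a_dir_inj {a b : Vee d} (g : Gad a b) {p p' : Fin 2}
    (h : (a.bar p).i = (a.bar p').i) : p = p' := by
  fin_cases p <;> fin_cases p'
  · rfl
  · exact absurd h g.aa
  · exact absurd h.symm g.aa
  · rfl

/-- the type is unique -/
theorem Typ.unique {a b c : Vee d} (g : Gad a b) {p q p' q' : Fin 2} (h : Typ a b c p q)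
    (h' : Typ a b c p' q') : p = p' ∧ q = q' := by
  obtain ⟨k', l', h1', h2'⟩ := h'
  constructor
  · rcases h.bars g k' with e | e
    · exact a_dir_inj g (e.1.symm.trans h1'.1)
    · exact absurd (h1'.1.symm.trans e.1) (g.ab p' q)
  · rcases h.bars g l' with e | e
    · exact absurd (e.1.symm.trans h2'.1) (g.ab p q')
    · exact a_dir_inj g.symm (e.1.symm.trans h2'.1)

/-- one-dimensional data of two vees overlapping on the line of `a.bar p` -/
theorem four_contra {A : Bar ι} {c w o c' w' o' : Vee d} {kc kw ko kc' kw' ko' : Fin 2}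
    (sc : SL (c.bar kc) A) (sw : SL (w.bar kw) A) (so : SL (o.bar ko) A)
    (sc' : SL (c'.bar kc') A) (sw' : SL (w'.bar kw') A) (so' : SL (o'.bar ko') A)
    (zw : c.z = w.z) (zo : c.z = o.z) (zw' : c'.z = w'.z) (zo' : c'.z = o'.z)
    (nco : ¬ Adj c o) (nwo : ¬ Adj w o) (nco' : ¬ Adj c' o') (nwo' : ¬ Adj w' o')
    (ncc : ¬ Adj c c') (nww : ¬ Adj w w')
    (v1 : Ov (c.bar kc) (w'.bar kw')) (v2 : Ov (c'.bar kc') (w.bar kw)) : False := by
  have oc := (c.on kc).2
  have ow := (w.on kw).2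
  have oo := (o.on ko).2
  have oc' := (c'.on kc').2
  have ow' := (w'.on kw').2
  have oo' := (o'.on ko').2
  rw [sc.1] at oc
  rw [sw.1, ← zw] at ow
  rw [so.1, ← zo] at oo
  rw [sc'.1] at oc'
  rw [sw'.1, ← zw'] at ow'
  rw [so'.1, ← zo'] at oo'
  exact oneD_four (c.bar kc).lt (w.bar kw).lt (o.bar ko).lt (c'.bar kc').lt (w'.bar kw').lt
    (o'.bar ko').lt oc.1 oc.2 ow.1 ow.2 oo.1 oo.2 oc'.1 oc'.2 ow'.1 ow'.2 oo'.1 oo'.2
    (not_ov (fun h => nco ⟨_, _, h⟩) (sc.trans so.symm))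
    (not_ov (fun h => nwo ⟨_, _, h⟩) (sw.trans so.symm))
    (not_ov (fun h => nco' ⟨_, _, h⟩) (sc'.trans so'.symm))
    (not_ov (fun h => nwo' ⟨_, _, h⟩) (sw'.trans so'.symm))
    (not_ov (fun h => ncc ⟨_, _, h⟩) (sc.trans sc'.symm))
    (not_ov (fun h => nww ⟨_, _, h⟩) (sw.trans sw'.symm))
    v1.2.2.1 v1.2.2.2 v2.2.2.1 v2.2.2.2

/-- Two leaves `c`, `c'` of types `t ≠ t'`, two leaves `w`, `w'` of the same types `t`, `t'`, and
further leaves `o`, `o'` of these types: impossible adjacencies. -/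
theorem pair_contra_aux (hd : ∀ i j, i ≠ j → phi (d i) (d j) ≠ 0)
    {a b c w o c' w' o' : Vee d} (g : Gad a b) {p q q' : Fin 2}
    (hc : Typ a b c p q) (hw : Typ a b w p q) (ho : Typ a b o p q)
    (hc' : Typ a b c' p q') (hw' : Typ a b w' p q') (ho' : Typ a b o' p q')
    (hqq : q ≠ q')
    (nco : ¬ Adj c o) (nwo : ¬ Adj w o) (nco' : ¬ Adj c' o') (nwo' : ¬ Adj w' o')
    (ncc : ¬ Adj c c') (nww : ¬ Adj w w')
    (v1 : Adj c w') (v2 : Adj c' w) : False := by
  obtain ⟨k1, l1, v1⟩ := v1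
  obtain ⟨k2, l2, v2⟩ := v2
  have e1 : SL (c.bar k1) (a.bar p) := by
    rcases hc.bars g k1 with e | e
    · exact e
    · exfalso
      rcases hw'.bars g l1 with f | f
      · exact g.ab p q ((f.1.symm.trans v1.1.symm).trans e.1)
      · exact hqq (a_dir_inj g.symm (e.1.symm.trans (v1.1.trans f.1)))
  have e2 : SL (c'.bar k2) (a.bar p) := by
    rcases hc'.bars g k2 with e | e
    · exact e
    · exfalso
      rcases hw.bars g l2 with f | f
      · exact g.ab p q' ((f.1.symm.trans v2.1.symm).trans e.1)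
      · exact hqq (a_dir_inj g.symm (e.1.symm.trans (v2.1.trans f.1))).symm
  have zw := z_eq hd (g.ab p q) hc hw
  have zo := z_eq hd (g.ab p q) hc ho
  have zw' := z_eq hd (g.ab p q') hc' hw'
  have zo' := z_eq hd (g.ab p q') hc' ho'
  obtain ⟨ko, -, go, -⟩ := ho
  obtain ⟨ko', -, go', -⟩ := ho'
  exact four_contra e1 (v2.sl.symm.trans e2) go.sl e2 (v1.sl.symm.trans e1) go'.sl zw zo zw' zo'
    nco nwo nco' nwo' ncc nww v1 v2

theorem pair_contra (hd : ∀ i j, i ≠ j → phi (d i) (d j) ≠ 0)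
    {a b c w o c' w' o' : Vee d} (g : Gad a b) {p q p' q' : Fin 2}
    (hc : Typ a b c p q) (hw : Typ a b w p q) (ho : Typ a b o p q)
    (hc' : Typ a b c' p' q') (hw' : Typ a b w' p' q') (ho' : Typ a b o' p' q')
    (hne : (p, q) ≠ (p', q'))
    (nco : ¬ Adj c o) (nwo : ¬ Adj w o) (nco' : ¬ Adj c' o') (nwo' : ¬ Adj w' o')
    (ncc : ¬ Adj c c') (nww : ¬ Adj w w')
    (v1 : Adj c w') (v2 : Adj c' w) : False := by
  by_cases hp : p = p'
  · subst hp
    have hq : q ≠ q' := fun e => hne (by rw [e])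
    exact pair_contra_aux hd g hc hw ho hc' hw' ho' hq nco nwo nco' nwo' ncc nww v1 v2
  · by_cases hq : q = q'
    · subst hq
      exact pair_contra_aux hd g.symm hc.symm hw.symm ho.symm hc'.symm hw'.symm ho'.symm hp
        nco nwo nco' nwo' ncc nww v1 v2
    · -- no common line at all
      obtain ⟨k1, l1, v1⟩ := v1
      rcases hc.bars g k1 with e | e <;> rcases hw'.bars g l1 with f | f
      · exact hp (a_dir_inj g (e.1.symm.trans (v1.1.trans f.1)))
      · exact g.ab p q' (e.1.symm.trans (v1.1.trans f.1))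
      · exact g.ab p' q (f.1.symm.trans (v1.1.symm.trans e.1))
      · exact hq (a_dir_inj g.symm (e.1.symm.trans (v1.1.trans f.1)))

/-- the adjacency pattern of the ten leaves: `0,1` and `2,3` are the two diagonals of a four cycle
and everything else is non-adjacent -/
def Indep (k l : Fin 10) : Prop :=
  k ≠ l ∧ ¬ (k.val < 2 ∧ 2 ≤ l.val ∧ l.val < 4) ∧ ¬ (l.val < 2 ∧ 2 ≤ k.val ∧ k.val < 4)

instance (k l : Fin 10) : Decidable (Indep k l) := by unfold Indep; infer_instance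

def S1 : Finset (Fin 10) := {0, 1, 4, 5, 6, 7, 8, 9}
def S2 : Finset (Fin 10) := {2, 3, 4, 5, 6, 7, 8, 9}

/-- **Gadget lemma.** -/
theorem gadget (hd : ∀ i j, i ≠ j → phi (d i) (d j) ≠ 0) {a b : Vee d} (hab : ¬ Adj a b)
    (c : Fin 10 → Vee d) (ca : ∀ k, Adj (c k) a) (cb : ∀ k, Adj (c k) b)
    (ind : ∀ k l, Indep k l → ¬ Adj (c k) (c l))
    (c4 : ∀ k l : Fin 10, k.val < 2 → 2 ≤ l.val → l.val < 4 → Adj (c k) (c l)) :
    Gad a b ∧ ∃ p q, Typ a b (c 0) p q ∧ Typ a b (c 1) p q := by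
  have hex : ∀ k, ∃ t : Fin 2 × Fin 2, Typ a b (c k) t.1 t.2 := by
    intro k
    obtain ⟨p, q, h⟩ := exists_typ (ca k) (cb k)
    exact ⟨(p, q), h⟩
  choose T hT using hex
  have i1 : ∀ x ∈ S1, ∀ y ∈ S1, x ≠ y → ¬ Adj (c x) (c y) := by
    intro x hx y hy hxy
    apply ind
    revert x y
    decide
  have i2 : ∀ x ∈ S2, ∀ y ∈ S2, x ≠ y → ¬ Adj (c x) (c y) := by
    intro x hx y hy hxy
    apply ind
    revert x y
    decide
  have g : Gad a b := gad_of_eight hd hab S1 (by decide) c T (fun x _ => hT x) i1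
  have key : ∀ S : Finset (Fin 10), (∀ x ∈ S, ∀ y ∈ S, x ≠ y → ¬ Adj (c x) (c y)) →
      ∀ x ∈ S, ∀ y ∈ S, ∀ z ∈ S, x ≠ y → x ≠ z → y ≠ z → T x = T y → T x = T z →
      False := by
    intro S hS x hx y hy z hz hxy hxz hyz e1 e2
    have t1 := hT x
    have t2 := hT y
    have t3 := hT z
    rw [← e1] at t2
    rw [← e2] at t3
    exact cap_typ hd hab t1 t2 t3 (hS x hx y hy hxy) (hS x hx z hz hxz) (hS y hy z hz hyz)
  have two1 := fibre_two S1 (by decide) T (key S1 i1)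
  have two2 := fibre_two S2 (by decide) T (key S2 i2)
  refine ⟨g, ?_⟩
  by_cases h01 : T 0 = T 1
  · refine ⟨(T 0).1, (T 0).2, hT 0, ?_⟩
    rw [h01]
    exact hT 1
  exfalso
  -- for each of the types of `0` and `1` there is one leaf among `4..9` and one among `2, 3`
  have claim : ∀ k ∈ ({0, 1} : Finset (Fin 10)), ∃ o : Fin 10, 4 ≤ o.val ∧ T o = T k ∧
      ∃ w : Fin 10, 2 ≤ w.val ∧ w.val < 4 ∧ T w = T k := by
    intro k hk
    have hkS : k ∈ S1 := by revert k; decide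
    have hk' : k.val < 2 := by revert k; decide
    -- first find `o`
    obtain ⟨x, hx, y, hy, hxy, ex, ey⟩ := two1 (T k)
    have ho : ∃ o : Fin 10, 4 ≤ o.val ∧ T o = T k := by
      by_contra hno
      push Not at hno
      have fx : x.val < 4 := by
        by_contra h; exact hno x (by omega) ex
      have fy : y.val < 4 := by
        by_contra h; exact hno y (by omega) ey
      have : (x = 0 ∧ y = 1) ∨ (x = 1 ∧ y = 0) := by
        clear ex ey hno two1 two2 hkS
        revert x y; decide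
      rcases this with ⟨e1, e2⟩ | ⟨e1, e2⟩ <;> subst e1 <;> subst e2
      · exact h01 (ex.trans ey.symm)
      · exact h01 (ey.trans ex.symm)
    obtain ⟨o, ho4, ho⟩ := ho
    refine ⟨o, ho4, ho, ?_⟩
    have hoS1 : o ∈ S1 := by
      clear ho; revert o; decide
    obtain ⟨x, hx, y, hy, hxy, ex, ey⟩ := two2 (T k)
    by_contra hno
    push Not at hno
    have big : ∀ z ∈ S2, T z = T k → z ∈ S1 ∧ 4 ≤ z.val := by
      intro z hz ez
      have h4 : 4 ≤ z.val := by
        by_contra h4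
        have h2 : 2 ≤ z.val := by clear ez; revert z; decide
        exact hno z h2 (by omega) ez
      refine ⟨?_, h4⟩
      clear ez hz; revert z; decide
    have bx := big x hx ex
    have byy := big y hy ey
    exact key S1 i1 k hkS x bx.1 y byy.1 (by intro e; rw [← e] at bx; omega)
      (by intro e; rw [← e] at byy; omega) hxy ex.symm ey.symm
  obtain ⟨o, ho4, ho, w, hw2, hw4, hw⟩ := claim 0 (by decide)
  obtain ⟨o', ho4', ho', w', hw2', hw4', hw'⟩ := claim 1 (by decide)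
  have hww : w ≠ w' := by
    intro e
    subst e
    exact h01 (hw.symm.trans hw')
  have hI : ∀ k l : Fin 10, k.val < 4 → 4 ≤ l.val → Indep k l := by decide
  have hIw : ∀ k l : Fin 10, 2 ≤ k.val → k.val < 4 → 2 ≤ l.val → l.val < 4 → k ≠ l →
      Indep k l := by decide
  have tc := hT 0
  have tw := hT w
  have tO := hT o
  have tc' := hT 1
  have tw' := hT w'
  have tO' := hT o'
  rw [hw] at tw
  rw [ho] at tO
  rw [hw'] at tw'
  rw [ho'] at tO'
  exact pair_contra hd g tc tw tO tc' tw' tO' (fun e => h01 e)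
    (ind _ _ (hI _ _ (by decide) ho4)) (ind _ _ (hI _ _ hw4 ho4))
    (ind _ _ (hI _ _ (by decide) ho4')) (ind _ _ (hI _ _ hw4' ho4'))
    (ind _ _ (by decide)) (ind _ _ (hIw _ _ hw2 hw4 hw2' hw4' hww))
    (c4 _ _ (by decide) hw2' hw4') (c4 _ _ (by decide) hw2 hw4)

/-- two non-adjacent vees `b`, `b'`, both crossing `a` four times, have no common line -/
theorem noshare (hd : ∀ i j, i ≠ j → phi (d i) (d j) ≠ 0) {a b b' : Vee d} (g : Gad a b)
    (g' : Gad a b') (hbb : ¬ Adj b b') (q q' : Fin 2) : ¬ SL (b.bar q) (b'.bar q') := by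
  intro hs
  obtain ⟨z, h1, h2, -, -, h5, h6⟩ := g.cr 0 q
  obtain ⟨z', h1', h2', -, -, h5', h6'⟩ := g'.cr 0 q'
  have hz : z = z' := by
    apply cross_unique (hd _ _ (g.ab 0 q))
    · rw [h1, h1']
    · rw [h2, hs.1, h2', hs.2]
  rw [← hz, ← hs.1] at h5' h6'
  exact hbb ⟨q, q', hs.1, hs.2, by linarith, by linarith⟩

/-- leaves of `(a, b)` and `(a, b')` can only overlap on a line of `a` -/
theorem line_adj (hd : ∀ i j, i ≠ j → phi (d i) (d j) ≠ 0) {a b b' : Vee d} (g : Gad a b)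
    (g' : Gad a b') (hbb : ¬ Adj b b') {c e : Vee d} {p q p' q' : Fin 2}
    (hc : Typ a b c p q) (he : Typ a b' e p' q') {k l : Fin 2} (h : Ov (c.bar k) (e.bar l)) :
    p = p' ∧ SL (c.bar k) (a.bar p) ∧ SL (e.bar l) (a.bar p) := by
  rcases hc.bars g k with f | f <;> rcases he.bars g' l with f' | f'
  · have hp : p = p' := a_dir_inj g (f.1.symm.trans (h.1.trans f'.1))
    subst hp
    exact ⟨rfl, f, f'⟩
  · exact absurd (f.1.symm.trans (h.1.trans f'.1)) (g'.ab p q')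
  · exact absurd (f'.1.symm.trans (h.1.symm.trans f.1)) (g.ab p' q)
  · exact absurd (f.symm.trans (h.sl.trans f')) (noshare hd g g' hbb q q')

theorem line_adj' (hd : ∀ i j, i ≠ j → phi (d i) (d j) ≠ 0) {a b b' : Vee d} (g : Gad a b)
    (g' : Gad a b') (hbb : ¬ Adj b b') {c e : Vee d} {p q p' q' : Fin 2}
    (hc : Typ a b c p q) (he : Typ a b' e p' q') (h : Adj c e) : p = p' := by
  obtain ⟨k, l, h⟩ := h
  exact (line_adj hd g g' hbb hc he h).1

/-- **Concurrency lemma.** -/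
theorem conc (hd0 : ∀ i, d i ≠ 0) (hd : ∀ i j, i ≠ j → phi (d i) (d j) ≠ 0)
    {a b b' : Vee d} (g : Gad a b)
    (g' : Gad a b') (hbb : ¬ Adj b b') {c c' e e' : Vee d} {p q p' q' : Fin 2}
    (hc : Typ a b c p q) (hc' : Typ a b c' p q) (he : Typ a b' e p' q')
    (he' : Typ a b' e' p' q') (v1 : Adj c e) (v2 : Adj c' e') (n1 : ¬ Adj c e')
    (n2 : ¬ Adj c' e) (n3 : ¬ Adj c c') : p = p' ∧ c.z = e.z := by
  obtain ⟨k1, l1, v1⟩ := v1
  obtain ⟨k2, l2, v2⟩ := v2
  obtain ⟨hp, f1, f1'⟩ := line_adj hd g g' hbb hc he v1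
  obtain ⟨-, f2, f2'⟩ := line_adj hd g g' hbb hc' he' v2
  refine ⟨hp, ?_⟩
  subst hp
  have zc := z_eq hd (g.ab _ _) hc hc'
  have ze := z_eq hd (g'.ab _ _) he he'
  have o1 := (c.on k1).2
  have o2 := (c'.on k2).2
  have o3 := (e.on l1).2
  have o4 := (e'.on l2).2
  rw [f1.1] at o1
  rw [f2.1, ← zc] at o2
  rw [f1'.1] at o3
  rw [f2'.1, ← ze] at o4
  apply point_unique (hd0 (a.bar p).i)
  · rw [hc.phi_a, he.phi_a]
  · exact oneD_conc o1.1 o1.2 o2.1 o2.2 o3.1 o3.2 o4.1 o4.2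
      (not_ov (fun h => n3 ⟨_, _, h⟩) (f1.trans f2.symm))
      (not_ov (fun h => n1 ⟨_, _, h⟩) (f1.trans f2'.symm))
      (not_ov (fun h => n2 ⟨_, _, h⟩) (f2.trans f1'.symm))
      v1.2.2.1 v1.2.2.2 v2.2.2.1 v2.2.2.2

end Pool.Agent.D0H19.Bend
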