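import Mathlib

/-!
# Edge-intersection representations by polylines with prescribed slopes

Definitions for problem MP_4b3eba_co.
-/

namespace Pool.Agent.D0H19.Bend

/-- The set of points covered by the polyline with the given list of vertices: the union of the
closed segments joining consecutive vertices. -/
def carrier : List (ℝ × ℝ) → Set (ℝ × ℝ)
  | p :: q :: l => segment ℝ p q ∪ carrier (q :: l)
  | _ => ∅

open Classical in
/-- The number of bends of the polyline with the given list of vertices: the number of places
where three consecutive vertices are not collinear (consecutive segments which are collinear are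
not counted as distinct). -/
noncomputable def bends : List (ℝ × ℝ) → ℕ
  | p :: q :: r :: l => (if Collinear ℝ {p, q, r} then 0 else 1) + bends (q :: r :: l)
  | _ => 0

/-- `l` is the list of vertices of a polyline whose segments are all nondegenerate and all
parallel to lines of `D`. -/
def IsPolyline (D : Set (Submodule ℝ (ℝ × ℝ))) (l : List (ℝ × ℝ)) : Prop :=
  2 ≤ l.length ∧ l.IsChain (fun p q => p ≠ q ∧ ∃ L ∈ D, q - p ∈ L)

/-- `G` has an EPG(`D`)-representation in which every polyline has at most `k` bends. -/
def HasRep {V : Type*} (D : Set (Submodule ℝ (ℝ × ℝ))) (G : SimpleGraph V) (k : ℕ) : Prop :=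
  ∃ P : V → List (ℝ × ℝ), (∀ v, IsPolyline D (P v)) ∧ (∀ v, bends (P v) ≤ k) ∧
    ∀ u v, u ≠ v → (G.Adj u v ↔ (carrier (P u) ∩ carrier (P v)).Infinite)

/-- `D` is a set of `d` pairwise non-parallel lines through the origin. -/
def IsSlopeSet (d : ℕ) (D : Set (Submodule ℝ (ℝ × ℝ))) : Prop :=
  D.encard = d ∧ ∀ L ∈ D, Module.finrank ℝ L = 1

/-- The least `k` such that `G` has an EPG(`D`)-representation in which every polyline has at most
`k` bends (`⊤` if there is none). -/
noncomputable def slopeBendNumber {V : Type*} (D : Set (Submodule ℝ (ℝ × ℝ)))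
    (G : SimpleGraph V) : ℕ∞ :=
  ⨅ (k : ℕ) (_ : HasRep D G k), (k : ℕ∞)

/-- The `d`-bend number of `G`. -/
noncomputable def bendNumber {V : Type*} (d : ℕ) (G : SimpleGraph V) : ℕ∞ :=
  ⨅ (D : Set (Submodule ℝ (ℝ × ℝ))) (_ : IsSlopeSet d D), slopeBendNumber D G

end Pool.Agent.D0H19.Bend
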