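import Pool.Agent.D0H19.Bend.Graph
import Pool.Agent.D0H19.Bend.Assemble

/-!
# Computed adjacencies of the explicit graph, and the lower bound
-/

namespace Pool.Agent.D0H19.Bend

def va (i : Fin 3) : Vx := .inl i
def vb (j : Fin 3) : Vx := .inr (.inl j)
def vc (i j : Fin 3) (k : Fin 10) : Vx := .inr (.inr (i, j, k))

set_option maxRecDepth 100000

theorem f_aa : ∀ i j, i ≠ j → (dat (va i)).ov (dat (va j)) = false := by decide +kernel
theorem f_bb : ∀ i j, i ≠ j → (dat (vb i)).ov (dat (vb j)) = false := by decide +kernel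
theorem f_ab : ∀ i j, (dat (va i)).ov (dat (vb j)) = false := by decide +kernel
theorem f_ca : ∀ i j k, (dat (vc i j k)).ov (dat (va i)) = true := by decide +kernel
theorem f_cb : ∀ i j k, (dat (vc i j k)).ov (dat (vb j)) = true := by decide +kernel
theorem f_ind : ∀ i j k l, Indep k l → (dat (vc i j k)).ov (dat (vc i j l)) = false := by
  decide +kernel
theorem f_c4 : ∀ i j, ∀ k l : Fin 10, k.val < 2 → 2 ≤ l.val → l.val < 4 →
    (dat (vc i j k)).ov (dat (vc i j l)) = true := by decide +kernel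
theorem f_con : ∀ t ∈ ([((0, 0), (2, 0)), ((1, 1), (2, 1)), ((0, 1), (0, 2)), ((1, 0), (1, 2))] :
      List ((Fin 3 × Fin 3) × (Fin 3 × Fin 3))),
      (dat (vc t.1.1 t.1.2 0)).ov (dat (vc t.2.1 t.2.2 0)) = true ∧
      (dat (vc t.1.1 t.1.2 1)).ov (dat (vc t.2.1 t.2.2 1)) = true ∧
      (dat (vc t.1.1 t.1.2 0)).ov (dat (vc t.2.1 t.2.2 1)) = false ∧
      (dat (vc t.1.1 t.1.2 1)).ov (dat (vc t.2.1 t.2.2 0)) = false := by decide +kernel
theorem f_line : (dat (vc 0 0 0)).ov (dat (vc 0 1 1)) = true ∧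
    (dat (vc 1 0 0)).ov (dat (vc 1 1 1)) = true ∧ (dat (vc 2 0 0)).ov (dat (vc 2 1 1)) = true ∧
    (dat (vc 0 0 0)).ov (dat (vc 1 0 1)) = true ∧ (dat (vc 0 1 0)).ov (dat (vc 1 1 1)) = true ∧
    (dat (vc 0 2 1)).ov (dat (vc 1 2 0)) = true ∧ (dat (vc 0 0 1)).ov (dat (vc 0 1 0)) = false := by
  decide +kernel

/-- **Lower bound**: no one-bend representation unless the slopes satisfy an algebraic relation. -/
theorem no_rep {ι : Type*} {d : ι → ℝ × ℝ} (hd0 : ∀ i, d i ≠ 0)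
    (hd : ∀ i j, i ≠ j → phi (d i) (d j) ≠ 0)
    (hrel : ∀ X X1 X2 Y Y1 Y2 : ι, X ≠ X2 → X1 ≠ X2 → Y ≠ Y2 → Y1 ≠ Y2 →
      X ≠ Y → X ≠ Y1 → X ≠ Y2 → X1 ≠ Y → X1 ≠ Y1 → X1 ≠ Y2 → X2 ≠ Y → X2 ≠ Y1 → X2 ≠ Y2 →
      phi (d X1) (d X2) * phi (d Y2) (d Y) * phi (d Y1) (d X) ≠
        phi (d X1) (d Y) * phi (d Y2) (d X) * phi (d Y1) (d X2)) :
    ¬ HasRep (slopes d) G 1 := by
  rintro ⟨P, hP, hb, hadj⟩
  choose V hV using fun v => exists_vee hd0 hd (P v) (hP v) (hb v)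
  have adj : ∀ u v, u ≠ v → (Adj (V u) (V v) ↔ (dat u).ov (dat v) = true) := by
    intro u v huv
    rw [← vee_inf_iff hd0 hd, ← hV, ← hV, ← hadj u v huv, G_adj]
    exact ⟨fun h => h.2, fun h => ⟨huv, h⟩⟩
  have pos : ∀ {u v}, u ≠ v → (dat u).ov (dat v) = true → Adj (V u) (V v) :=
    fun huv h => (adj _ _ huv).mpr h
  have neg : ∀ {u v}, u ≠ v → (dat u).ov (dat v) = false → ¬ Adj (V u) (V v) := by
    intro u v huv h h'
    rw [adj u v huv, h] at h'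
    exact Bool.noConfusion h'
  have ne1 : ∀ i j, i ≠ j → va i ≠ va j := by decide
  have ne2 : ∀ i j, i ≠ j → vb i ≠ vb j := by decide
  have ne3 : ∀ i j, va i ≠ vb j := by decide
  have ne4 : ∀ i j k i', vc i j k ≠ va i' := fun i j k i' h => by cases h
  have ne5 : ∀ i j k j', vc i j k ≠ vb j' := fun i j k j' h => by cases h
  have ne6 : ∀ i j k l, k ≠ l → vc i j k ≠ vc i j l := by
    intro i j k l hkl h
    simp only [vc, Sum.inr.injEq, Prod.mk.injEq, true_and] at h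
    exact hkl h
  have ne7 : ∀ i j k i' j' l, ((i, j) : Fin 3 × Fin 3) ≠ (i', j') → vc i j k ≠ vc i' j' l := by
    intro i j k i' j' l hij h
    simp only [vc, Sum.inr.injEq, Prod.mk.injEq] at h
    exact hij (by rw [h.1, h.2.1])
  refine no_config hd0 hd hrel (fun i => V (va i)) (fun j => V (vb j))
    (fun i j k => V (vc i j k)) (fun i j h => neg (ne1 i j h) (f_aa i j h))
    (fun i j h => neg (ne2 i j h) (f_bb i j h)) (fun i j => neg (ne3 i j) (f_ab i j))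
    (fun i j k => pos (ne4 i j k i) (f_ca i j k)) (fun i j k => pos (ne5 i j k j) (f_cb i j k))
    (fun i j k l h => neg (ne6 i j k l h.1) (f_ind i j k l h))
    (fun i j k l h1 h2 h3 => pos (ne6 i j k l (by rintro rfl; omega)) (f_c4 i j k l h1 h2 h3))
    ?_ (pos (ne7 _ _ _ _ _ _ (by decide)) f_line.1)
    (pos (ne7 _ _ _ _ _ _ (by decide)) f_line.2.1)
    (pos (ne7 _ _ _ _ _ _ (by decide)) f_line.2.2.1)
    (pos (ne7 _ _ _ _ _ _ (by decide)) f_line.2.2.2.1)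
    (pos (ne7 _ _ _ _ _ _ (by decide)) f_line.2.2.2.2.1)
    (pos (ne7 _ _ _ _ _ _ (by decide)) f_line.2.2.2.2.2.1)
    (neg (ne7 _ _ _ _ _ _ (by decide)) f_line.2.2.2.2.2.2)
  intro t ht
  have hne : t.1 ≠ t.2 := by
    revert t; decide
  obtain ⟨h1, h2, h3, h4⟩ := f_con t ht
  exact ⟨pos (ne7 _ _ _ _ _ _ hne) h1, pos (ne7 _ _ _ _ _ _ hne) h2,
    neg (ne7 _ _ _ _ _ _ hne) h3, neg (ne7 _ _ _ _ _ _ hne) h4⟩

end Pool.Agent.D0H19.Bend
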