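import Pool.Agent.D0H19.Bend.Vee

/-!
# The structure forced by eight independent common neighbours
-/

namespace Pool.Agent.D0H19.Bend

variable {ι : Type*} {d : ι → ℝ × ℝ}

/-- two crossing pairs of bars: all four crossings exist and are interior -/
structure Gad (a b : Vee d) : Prop where
  ab : ∀ p q, (a.bar p).i ≠ (b.bar q).i
  aa : (a.bar 0).i ≠ (a.bar 1).i
  bb : (b.bar 0).i ≠ (b.bar 1).i
  cr : ∀ p q, ∃ z, phi (d (a.bar p).i) z = (a.bar p).h ∧ phi (d (b.bar q).i) z = (b.bar q).h ∧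
    (a.bar p).lo < psi (d (a.bar p).i) z ∧ psi (d (a.bar p).i) z < (a.bar p).hi ∧
    (b.bar q).lo < psi (d (b.bar q).i) z ∧ psi (d (b.bar q).i) z < (b.bar q).hi

theorem Gad.symm {a b : Vee d} (h : Gad a b) : Gad b a where
  ab p q := (h.ab q p).symm
  aa := h.bb
  bb := h.aa
  cr p q := by
    obtain ⟨z, h1, h2, h3, h4, h5, h6⟩ := h.cr q p
    exact ⟨z, h2, h1, h5, h6, h3, h4⟩

/-- if two non-adjacent vees have the same type, then the two bars have different directions -/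
theorem ne_of_typ {a b c c' : Vee d} {p q : Fin 2} (hab : ¬ Adj a b)
    (hc : Typ a b c p q) (hc' : Typ a b c' p q) (hcc : ¬ Adj c c') :
    (a.bar p).i ≠ (b.bar q).i := by
  intro he
  obtain ⟨k, l, h1, h2⟩ := hc
  obtain ⟨k', l', h1', h2'⟩ := hc'
  have ek : (c.bar k).i = (a.bar p).i := h1.1
  have el : (c.bar l).i = (a.bar p).i := h2.1.trans he.symm
  have ek' : (c'.bar k').i = (a.bar p).i := h1'.1
  have el' : (c'.bar l').i = (a.bar p).i := h2'.1.trans he.symm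
  have onk := c.on k
  have onl := c.on l
  have onk' := c'.on k'
  have onl' := c'.on l'
  simp only [Bar.On] at onk onl onk' onl'
  rw [ek] at onk
  rw [el] at onl
  rw [ek'] at onk'
  rw [el'] at onl'
  have hk : (c.bar k).h = (c.bar l).h := onk.1.symm.trans onl.1
  have hk' : (c'.bar k').h = (c'.bar l').h := onk'.1.symm.trans onl'.1
  have hh : (a.bar p).h = (b.bar q).h := by rw [← h1.2.1, hk, h2.2.1]
  have nab := not_ov (fun h => hab ⟨p, q, h⟩) ⟨he, hh⟩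
  have s11 := not_ov (fun h => hcc ⟨k, k', h⟩)
    ⟨ek.trans ek'.symm, by rw [h1.2.1, h1'.2.1]⟩
  have s12 := not_ov (fun h => hcc ⟨k, l', h⟩)
    ⟨ek.trans el'.symm, by rw [h1.2.1, h2'.2.1, hh]⟩
  have s21 := not_ov (fun h => hcc ⟨l, k', h⟩)
    ⟨el.trans ek'.symm, by rw [h2.2.1, h1'.2.1, hh]⟩
  have s22 := not_ov (fun h => hcc ⟨l, l', h⟩)
    ⟨el.trans el'.symm, by rw [h2.2.1, h2'.2.1]⟩
  exact oneD_bridge (onk.2.1.trans onl.2.2) (onl.2.1.trans onk.2.2)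
    (onk'.2.1.trans onl'.2.2) (onl'.2.1.trans onk'.2.2)
    h1.2.2.1 h1.2.2.2 h2.2.2.1 h2.2.2.2 h1'.2.2.1 h1'.2.2.2 h2'.2.2.1 h2'.2.2.2
    (c.bar k).lt (c'.bar k').lt nab s11 s12 s21 s22

/-- the bend point of a vee of type `(p, q)` lies on both lines -/
theorem Typ.phi_a {a b c : Vee d} {p q : Fin 2} (hc : Typ a b c p q) :
    phi (d (a.bar p).i) c.z = (a.bar p).h := by
  obtain ⟨k, l, h1, h2⟩ := hc
  have := (c.on k).1
  rw [h1.1, h1.2.1] at this
  exact this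

theorem Typ.phi_b {a b c : Vee d} {p q : Fin 2} (hc : Typ a b c p q) :
    phi (d (b.bar q).i) c.z = (b.bar q).h := hc.symm.phi_a

theorem z_eq (hd : ∀ i j, i ≠ j → phi (d i) (d j) ≠ 0) {a b c c' : Vee d} {p q : Fin 2}
    (hne : (a.bar p).i ≠ (b.bar q).i) (hc : Typ a b c p q) (hc' : Typ a b c' p q) :
    c.z = c'.z :=
  cross_unique (hd _ _ hne) (hc.phi_a.trans hc'.phi_a.symm) (hc.phi_b.trans hc'.phi_b.symm)

/-- the crossing point is interior to the bar of `a` -/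
theorem inner_a (hd : ∀ i j, i ≠ j → phi (d i) (d j) ≠ 0) {a b c c' : Vee d} {p q : Fin 2}
    (hne : (a.bar p).i ≠ (b.bar q).i) (hc : Typ a b c p q) (hc' : Typ a b c' p q)
    (hcc : ¬ Adj c c') :
    (a.bar p).lo < psi (d (a.bar p).i) c.z ∧ psi (d (a.bar p).i) c.z < (a.bar p).hi := by
  have hz := z_eq hd hne hc hc'
  obtain ⟨k, l, h1, h2⟩ := hc
  obtain ⟨k', l', h1', h2'⟩ := hc'
  have o1 := (c.on k).2
  have o2 := (c'.on k').2
  rw [h1.1] at o1
  rw [h1'.1, ← hz] at o2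
  have n := not_ov (fun h => hcc ⟨k, k', h⟩) (h1.sl.trans h1'.sl.symm)
  exact oneD_inner o1.1 o1.2 o2.1 o2.2 h1.2.2.1 h1.2.2.2 h1'.2.2.1 h1'.2.2.2 n

/-- three pairwise non-adjacent vees with the same bend point cannot all have a bar on a line -/
theorem cap {A : Bar ι} {c1 c2 c3 : Vee d} {k1 k2 k3 : Fin 2}
    (s1 : SL (c1.bar k1) A) (s2 : SL (c2.bar k2) A) (s3 : SL (c3.bar k3) A)
    (z2 : c1.z = c2.z) (z3 : c1.z = c3.z)
    (n12 : ¬ Adj c1 c2) (n13 : ¬ Adj c1 c3) (n23 : ¬ Adj c2 c3) : False := by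
  have o1 := (c1.on k1).2
  have o2 := (c2.on k2).2
  have o3 := (c3.on k3).2
  rw [s1.1] at o1
  rw [s2.1, ← z2] at o2
  rw [s3.1, ← z3] at o3
  exact oneD_cap (c1.bar k1).lt (c2.bar k2).lt (c3.bar k3).lt o1.1 o1.2 o2.1 o2.2 o3.1 o3.2
    (not_ov (fun h => n12 ⟨k1, k2, h⟩) (s1.trans s2.symm))
    (not_ov (fun h => n13 ⟨k1, k3, h⟩) (s1.trans s3.symm))
    (not_ov (fun h => n23 ⟨k2, k3, h⟩) (s2.trans s3.symm))

/-- no three pairwise non-adjacent vees of the same type -/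
theorem cap_typ (hd : ∀ i j, i ≠ j → phi (d i) (d j) ≠ 0) {a b c1 c2 c3 : Vee d} {p q : Fin 2}
    (hab : ¬ Adj a b) (h1 : Typ a b c1 p q) (h2 : Typ a b c2 p q) (h3 : Typ a b c3 p q)
    (n12 : ¬ Adj c1 c2) (n13 : ¬ Adj c1 c3) (n23 : ¬ Adj c2 c3) : False := by
  have hne := ne_of_typ hab h1 h2 n12
  have z2 := z_eq hd hne h1 h2
  have z3 := z_eq hd hne h1 h3
  obtain ⟨k1, l1, g1, -⟩ := h1
  obtain ⟨k2, l2, g2, -⟩ := h2
  obtain ⟨k3, l3, g3, -⟩ := h3
  exact cap g1.sl g2.sl g3.sl z2 z3 n12 n13 n23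

/-- counting: a map from an eight element set to `Fin 2 × Fin 2` with all fibres of size at most
two has all fibres of size exactly two -/
theorem fibre_two {κ : Type*} [DecidableEq κ] (S : Finset κ) (hS : S.card = 8)
    (T : κ → Fin 2 × Fin 2)
    (h : ∀ x ∈ S, ∀ y ∈ S, ∀ z ∈ S, x ≠ y → x ≠ z → y ≠ z → T x = T y → T x = T z → False)
    (t : Fin 2 × Fin 2) : ∃ x ∈ S, ∃ y ∈ S, x ≠ y ∧ T x = t ∧ T y = t := by
  classical
  have hle : ∀ t, (S.filter (fun x => T x = t)).card ≤ 2 := by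
    intro t
    by_contra hc
    push Not at hc
    obtain ⟨x, hx, y, hy, z, hz, hxy, hxz, hyz⟩ := Finset.two_lt_card.mp hc
    simp only [Finset.mem_filter] at hx hy hz
    exact h x hx.1 y hy.1 z hz.1 hxy hxz hyz (hx.2.trans hy.2.symm) (hx.2.trans hz.2.symm)
  have hsum : ∑ t : Fin 2 × Fin 2, (S.filter (fun x => T x = t)).card = 8 := by
    rw [← hS]
    exact (Finset.card_eq_sum_card_fiberwise (fun x _ => Finset.mem_coe.mpr (Finset.mem_univ _))).symm
  have hone : 1 < (S.filter (fun x => T x = t)).card := by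
    by_contra hc
    push Not at hc
    have h1 : ∑ t : Fin 2 × Fin 2, (S.filter (fun x => T x = t)).card <
        ∑ _t : Fin 2 × Fin 2, 2 :=
      Finset.sum_lt_sum (fun i _ => hle i) ⟨t, Finset.mem_univ _, by omega⟩
    rw [hsum] at h1
    simp at h1
  obtain ⟨x, hx, y, hy, hxy⟩ := Finset.one_lt_card.mp hone
  simp only [Finset.mem_filter] at hx hy
  exact ⟨x, hx.1, y, hy.1, hxy, hx.2, hy.2⟩

theorem aa_of_typ (hd : ∀ i j, i ≠ j → phi (d i) (d j) ≠ 0) {a b : Vee d}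
    {c1 c2 c3 : Vee d} {q : Fin 2}
    (hne : ∀ p, (a.bar p).i ≠ (b.bar q).i)
    (h1 : Typ a b c1 0 q) (h2 : Typ a b c2 0 q) (h3 : Typ a b c3 1 q)
    (n12 : ¬ Adj c1 c2) (n13 : ¬ Adj c1 c3) (n23 : ¬ Adj c2 c3) :
    (a.bar 0).i ≠ (a.bar 1).i := by
  intro he
  have hh : (a.bar 0).h = (a.bar 1).h := by
    have e0 := (a.on 0).1
    have e1 := (a.on 1).1
    rw [he] at e0
    exact e0.symm.trans e1
  have z2 := z_eq hd (hne 0) h1 h2
  have z3 : c1.z = c3.z := by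
    refine cross_unique (hd _ _ (hne 0)) ?_ (h1.phi_b.trans h3.phi_b.symm)
    rw [h1.phi_a, he, h3.phi_a, hh]
  obtain ⟨k1, l1, g1, -⟩ := h1
  obtain ⟨k2, l2, g2, -⟩ := h2
  obtain ⟨k3, l3, g3, -⟩ := h3
  exact cap g1.sl g2.sl (g3.sl.trans ⟨he.symm, hh.symm⟩) z2 z3 n12 n13 n23

/-- **Structure lemma.** Two non-adjacent vees with eight pairwise non-adjacent common neighbours
cross four times, at interior points. -/
theorem gad_of_eight (hd : ∀ i j, i ≠ j → phi (d i) (d j) ≠ 0) {κ : Type*} [DecidableEq κ]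
    {a b : Vee d} (hab : ¬ Adj a b)
    (S : Finset κ) (hS : S.card = 8) (c : κ → Vee d) (T : κ → Fin 2 × Fin 2)
    (hT : ∀ x ∈ S, Typ a b (c x) (T x).1 (T x).2)
    (hcc : ∀ x ∈ S, ∀ y ∈ S, x ≠ y → ¬ Adj (c x) (c y)) : Gad a b := by
  have key : ∀ x ∈ S, ∀ y ∈ S, ∀ z ∈ S, x ≠ y → x ≠ z → y ≠ z → T x = T y → T x = T z →
      False := by
    intro x hx y hy z hz hxy hxz hyz e1 e2
    have t1 := hT x hx
    have t2 := hT y hy
    have t3 := hT z hz
    rw [← e1] at t2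
    rw [← e2] at t3
    exact cap_typ hd hab t1 t2 t3 (hcc x hx y hy hxy) (hcc x hx z hz hxz) (hcc y hy z hz hyz)
  have two := fibre_two S hS T key
  have ne : ∀ p q, (a.bar p).i ≠ (b.bar q).i := by
    intro p q
    obtain ⟨x, hx, y, hy, hxy, ex, ey⟩ := two (p, q)
    have t1 := hT x hx
    have t2 := hT y hy
    rw [ex] at t1
    rw [ey] at t2
    exact ne_of_typ hab t1 t2 (hcc x hx y hy hxy)
  have neq : ∀ {x y : κ} {s t : Fin 2 × Fin 2}, T x = s → T y = t → s ≠ t → x ≠ y := by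
    intro x y s t e1 e2 hst e
    exact hst (by rw [← e1, ← e2, e])
  refine ⟨ne, ?_, ?_, ?_⟩
  · obtain ⟨x, hx, y, hy, hxy, ex, ey⟩ := two (0, 0)
    obtain ⟨w, hw, -, -, -, ew, -⟩ := two (1, 0)
    have t1 := hT x hx
    have t2 := hT y hy
    have t3 := hT w hw
    rw [ex] at t1
    rw [ey] at t2
    rw [ew] at t3
    exact aa_of_typ hd (fun p => ne p 0) t1 t2 t3 (hcc x hx y hy hxy)
      (hcc x hx w hw (neq ex ew (by decide))) (hcc y hy w hw (neq ey ew (by decide)))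
  · obtain ⟨x, hx, y, hy, hxy, ex, ey⟩ := two (0, 0)
    obtain ⟨w, hw, -, -, -, ew, -⟩ := two (0, 1)
    have t1 := hT x hx
    have t2 := hT y hy
    have t3 := hT w hw
    rw [ex] at t1
    rw [ey] at t2
    rw [ew] at t3
    exact aa_of_typ hd (fun p => (ne 0 p).symm) t1.symm t2.symm t3.symm (hcc x hx y hy hxy)
      (hcc x hx w hw (neq ex ew (by decide))) (hcc y hy w hw (neq ey ew (by decide)))
  · intro p q
    obtain ⟨x, hx, y, hy, hxy, ex, ey⟩ := two (p, q)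
    have t1 := hT x hx
    have t2 := hT y hy
    rw [ex] at t1
    rw [ey] at t2
    have hn := hcc x hx y hy hxy
    have i1 := inner_a hd (ne p q) t1 t2 hn
    have i2 := inner_a hd (ne p q).symm t1.symm t2.symm hn
    exact ⟨(c x).z, t1.phi_a, t1.phi_b, i1.1, i1.2, i2.1, i2.2⟩

end Pool.Agent.D0H19.Bend
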