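import Pool.Agent.D0H19.Bend.Facts

/-!
# Generic slope sets of every size, and slope sets containing the four special slopes
-/

namespace Pool.Agent.D0H19.Bend

open MvPolynomial

/-- the polynomial relation -/
noncomputable def relPoly (n : ℕ) (t : Fin n × Fin n × Fin n × Fin n × Fin n × Fin n) :
    MvPolynomial (Fin n) ℝ :=
  (X t.2.2.1 - X t.2.1) * (X t.2.2.2.1 - X t.2.2.2.2.2) * (X t.1 - X t.2.2.2.2.1) -
    (X t.2.2.2.1 - X t.2.1) * (X t.1 - X t.2.2.2.2.2) * (X t.2.2.1 - X t.2.2.2.2.1)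

/-- the distinctness constraints -/
def Good {n : ℕ} (t : Fin n × Fin n × Fin n × Fin n × Fin n × Fin n) : Prop :=
  t.1 ≠ t.2.2.1 ∧ t.2.1 ≠ t.2.2.1 ∧ t.2.2.2.1 ≠ t.2.2.2.2.2 ∧ t.2.2.2.2.1 ≠ t.2.2.2.2.2 ∧
  t.1 ≠ t.2.2.2.1 ∧ t.1 ≠ t.2.2.2.2.1 ∧ t.1 ≠ t.2.2.2.2.2 ∧
  t.2.1 ≠ t.2.2.2.1 ∧ t.2.1 ≠ t.2.2.2.2.1 ∧ t.2.1 ≠ t.2.2.2.2.2 ∧
  t.2.2.1 ≠ t.2.2.2.1 ∧ t.2.2.1 ≠ t.2.2.2.2.1 ∧ t.2.2.1 ≠ t.2.2.2.2.2

theorem relPoly_ne {n : ℕ} (t : Fin n × Fin n × Fin n × Fin n × Fin n × Fin n) (ht : Good t) :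
    relPoly n t ≠ 0 := by
  obtain ⟨x, x1, x2, y, y1, y2⟩ := t
  simp only [Good] at ht
  obtain ⟨h1, h2, h3, h4, h5, h6, h7, h8, h9, h10, h11, h12, h13⟩ := ht
  intro h0
  obtain ⟨f, hx, hx1, hx2, hy, hy1, hy2⟩ : ∃ f : Fin n → ℝ, f x = 0 ∧ f x1 = 0 ∧ f x2 = 2 ∧
      f y = 1 ∧ f y1 = 1 ∧ f y2 = 2 := by
    refine ⟨fun i => if i = x2 ∨ i = y2 then (2 : ℝ) else if i = y ∨ i = y1 then 1 else 0,
      ?_, ?_, ?_, ?_, ?_, ?_⟩
    · simp only [h1, h5, h6, h7, or_self, if_false]
    · simp only [h2, h8, h9, h10, or_self, if_false]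
    · simp
    · simp only [h11.symm, h3, or_self, if_false, true_or, if_true]
    · simp only [h12.symm, h4, or_self, if_false, or_true, if_true]
    · simp
  have := congrArg (eval f) h0
  simp only [relPoly, map_sub, map_mul, eval_X, map_zero, hx, hx1, hx2, hy, hy1, hy2] at this
  norm_num at this

theorem exists_generic (n : ℕ) : ∃ m : Fin n → ℝ, Function.Injective m ∧
    ∀ t, Good t → eval m (relPoly n t) ≠ 0 := by
  classical
  set F : MvPolynomial (Fin n) ℝ :=
    (∏ p ∈ Finset.univ.filter (fun p : Fin n × Fin n => p.1 ≠ p.2), (X p.1 - X p.2)) *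
    (∏ t ∈ Finset.univ.filter (fun t : Fin n × Fin n × Fin n × Fin n × Fin n × Fin n => Good t),
      relPoly n t) with hF
  have hF0 : F ≠ 0 := by
    rw [hF]
    refine mul_ne_zero ?_ ?_
    · rw [Finset.prod_ne_zero_iff]
      rintro p hp h
      simp only [Finset.mem_filter, Finset.mem_univ, true_and] at hp
      have h' := sub_eq_zero.mp h
      exact hp (X_injective (R := ℝ) h')
    · rw [Finset.prod_ne_zero_iff]
      rintro t ht
      simp only [Finset.mem_filter, Finset.mem_univ, true_and] at ht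
      exact relPoly_ne t ht
  have hex : ∃ m : Fin n → ℝ, eval m F ≠ 0 := by
    by_contra hc
    push Not at hc
    apply hF0
    apply MvPolynomial.funext
    intro m
    rw [hc m, map_zero]
  obtain ⟨m, hm⟩ := hex
  rw [hF, map_mul, map_prod, map_prod] at hm
  have hm1 := left_ne_zero_of_mul hm
  have hm2 := right_ne_zero_of_mul hm
  rw [Finset.prod_ne_zero_iff] at hm1 hm2
  refine ⟨m, ?_, ?_⟩
  · intro i j hij
    by_contra hne
    have := hm1 (i, j) (by simp [hne])
    simp only [map_sub, eval_X] at this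
    exact this (by rw [hij, sub_self])
  · intro t ht
    exact hm2 t (by simp [ht])

theorem span_pair_inj {a b : ℝ}
    (h : Submodule.span ℝ {((1 : ℝ), a)} = Submodule.span ℝ {((1 : ℝ), b)}) : a = b := by
  have : ((1 : ℝ), a) ∈ Submodule.span ℝ {((1 : ℝ), b)} := by
    rw [← h]; exact Submodule.mem_span_singleton_self _
  obtain ⟨t, ht⟩ := Submodule.mem_span_singleton.mp this
  simp only [Prod.smul_mk, smul_eq_mul, mul_one, Prod.mk.injEq] at ht
  rw [← ht.2, ht.1, one_mul]

/-- **Generic slope sets.** -/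
theorem exists_bad (n : ℕ) : ∃ D : Set (Submodule ℝ (ℝ × ℝ)), IsSlopeSet n D ∧
    ¬ HasRep D G 1 := by
  obtain ⟨m, hinj, hm⟩ := exists_generic n
  set d : Fin n → ℝ × ℝ := fun i => (1, m i) with hd
  have hphi : ∀ i j, phi (d i) (d j) = m j - m i := by
    intro i j
    simp only [phi, hd]; ring
  have hd0 : ∀ i, d i ≠ 0 := by
    intro i h
    have := congrArg Prod.fst h
    simp [hd] at this
  refine ⟨slopes d, ⟨?_, ?_⟩, ?_⟩
  · have hI : Function.Injective (fun i => Submodule.span ℝ {d i}) := by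
      intro i j hij
      exact hinj (span_pair_inj hij)
    rw [slopes, ← Set.image_univ, hI.encard_image, Set.encard_univ]
    simp
  · rintro L ⟨i, rfl⟩
    exact finrank_span_singleton (hd0 i)
  · apply no_rep hd0
    · intro i j hij
      rw [hphi]
      exact sub_ne_zero.mpr (fun h => hij (hinj h).symm)
    · intro x x1 x2 y y1 y2 h1 h2 h3 h4 h5 h6 h7 h8 h9 h10 h11 h12 h13 he
      apply hm (x, x1, x2, y, y1, y2) ⟨h1, h2, h3, h4, h5, h6, h7, h8, h9, h10, h11, h12, h13⟩
      simp only [hphi] at he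
      simp only [relPoly, map_sub, map_mul, eval_X]
      linear_combination he

theorem slopes_eR_encard : (slopes eR).encard = 4 := by
  have hI : Function.Injective (fun i => Submodule.span ℝ {eR i}) := by
    intro i j hij
    by_contra hne
    have h : eR i ∈ Submodule.span ℝ {eR j} := by
      have h' : eR i ∈ (fun i => Submodule.span ℝ {eR i}) i :=
        Submodule.mem_span_singleton_self _
      rw [hij] at h'
      exact h'
    obtain ⟨t, ht⟩ := Submodule.mem_span_singleton.mp h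
    apply eR_phi i j hne
    rw [← ht]
    simp only [phi, Prod.smul_fst, Prod.smul_snd, smul_eq_mul]
    ring
  rw [slopes, ← Set.image_univ, hI.encard_image, Set.encard_univ]
  simp

/-- **Good slope sets of every size at least four.** -/
theorem exists_good (n : ℕ) (hn : 4 ≤ n) : ∃ D : Set (Submodule ℝ (ℝ × ℝ)), IsSlopeSet n D ∧
    HasRep D G 1 := by
  set T : Set (Submodule ℝ (ℝ × ℝ)) := {L | Module.finrank ℝ L = 1} with hT
  have hsub : slopes eR ⊆ T := by
    rintro L ⟨i, rfl⟩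
    exact finrank_span_singleton (eR_ne i)
  have hTinf : T.Infinite := by
    have hr : (Set.range (fun a : ℝ => Submodule.span ℝ {((1 : ℝ), a)})).Infinite :=
      Set.infinite_range_of_injective (fun a b h => span_pair_inj h)
    refine hr.mono ?_
    rintro _ ⟨a, rfl⟩
    refine finrank_span_singleton ?_
    intro h
    have := congrArg Prod.fst h
    simp at this
  obtain ⟨D, h1, h2, h3⟩ := Set.exists_superset_subset_encard_eq (k := (n : ℕ∞)) hsub
    (by rw [slopes_eR_encard]; exact_mod_cast hn) (by rw [hTinf.encard_eq]; exact le_top)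
  exact ⟨D, ⟨h3, fun L hL => h2 hL⟩, G_hasRep D h1⟩

end Pool.Agent.D0H19.Bend
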