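import Pool.Agent.D0H19.Bend.Poly

/-!
# The explicit graph and its one-bend representation with slopes `0, ∞, 1, -1`
-/

namespace Pool.Agent.D0H19.Bend

/-- the four directions (integer coordinates) -/
def eZ : Fin 4 → ℤ × ℤ := ![(1, 0), (0, 1), (1, 1), (1, -1)]

/-- the four directions -/
def eR (i : Fin 4) : ℝ × ℝ := (((eZ i).1 : ℤ), ((eZ i).2 : ℤ))

/-- A one-bend polyline with integer data: bend point `(x, y)`, first arm of signed length `A` in
direction `i`, second arm of signed length `B` in direction `j`. -/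
structure Dat where
  x : ℤ
  y : ℤ
  i : Fin 4
  A : ℤ
  j : Fin 4
  B : ℤ

/-- the vertices of the polyline -/
def Dat.poly (D : Dat) : List (ℝ × ℝ) :=
  [((D.x : ℝ), (D.y : ℝ)) + (D.A : ℝ) • eR D.i, ((D.x : ℝ), (D.y : ℝ)),
    ((D.x : ℝ), (D.y : ℝ)) + (D.B : ℝ) • eR D.j]

/-- integer bar -/
structure ZBar where
  i : Fin 4
  h : ℤ
  lo : ℤ
  hi : ℤ

def zbar (x y : ℤ) (i : Fin 4) (A : ℤ) : ZBar where
  i := i
  h := (eZ i).1 * y - (eZ i).2 * x
  lo := min ((eZ i).1 * x + (eZ i).2 * y)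
    ((eZ i).1 * x + (eZ i).2 * y + A * ((eZ i).1 * (eZ i).1 + (eZ i).2 * (eZ i).2))
  hi := max ((eZ i).1 * x + (eZ i).2 * y)
    ((eZ i).1 * x + (eZ i).2 * y + A * ((eZ i).1 * (eZ i).1 + (eZ i).2 * (eZ i).2))

def zov (S T : ZBar) : Bool :=
  decide (S.i = T.i) && (decide (S.h = T.h) && (decide (S.lo < T.hi) && decide (T.lo < S.hi)))

def Dat.ov (D E : Dat) : Bool :=
  zov (zbar D.x D.y D.i D.A) (zbar E.x E.y E.i E.A) ||
  (zov (zbar D.x D.y D.i D.A) (zbar E.x E.y E.j E.B) ||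
  (zov (zbar D.x D.y D.j D.B) (zbar E.x E.y E.i E.A) ||
  zov (zbar D.x D.y D.j D.B) (zbar E.x E.y E.j E.B)))

theorem eR_ne (i : Fin 4) : eR i ≠ 0 := by
  fin_cases i <;> simp [eR, eZ, Prod.ext_iff]

theorem eR_phi (i j : Fin 4) (h : i ≠ j) : phi (eR i) (eR j) ≠ 0 := by
  fin_cases i <;> fin_cases j <;> first | exact absurd rfl h | (simp [phi, eR, eZ] <;> norm_num)

/-- the real bar of an arm -/
noncomputable def rbar (x y : ℤ) (i : Fin 4) (A : ℤ) (hA : A ≠ 0) : Bar (Fin 4) :=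
  barOf eR i ((x : ℝ), (y : ℝ)) (((x : ℝ), (y : ℝ)) + (A : ℝ) • eR i)
    (psi_ne (eR_ne i) (Int.cast_ne_zero.mpr hA) rfl)

theorem rbar_i (x y : ℤ) (i : Fin 4) (A : ℤ) (hA : A ≠ 0) :
    (rbar x y i A hA).i = (zbar x y i A).i := rfl

theorem rbar_h (x y : ℤ) (i : Fin 4) (A : ℤ) (hA : A ≠ 0) :
    (rbar x y i A hA).h = ((zbar x y i A).h : ℝ) := by
  simp only [rbar, barOf, zbar, phi, eR]
  push_cast
  ring

theorem rbar_lo (x y : ℤ) (i : Fin 4) (A : ℤ) (hA : A ≠ 0) :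
    (rbar x y i A hA).lo = ((zbar x y i A).lo : ℝ) := by
  simp only [rbar, barOf, zbar, psi_add_smul]
  simp only [psi, eR]
  push_cast
  ring_nf

theorem rbar_hi (x y : ℤ) (i : Fin 4) (A : ℤ) (hA : A ≠ 0) :
    (rbar x y i A hA).hi = ((zbar x y i A).hi : ℝ) := by
  simp only [rbar, barOf, zbar, psi_add_smul]
  simp only [psi, eR]
  push_cast
  ring_nf

theorem ov_rbar (x y : ℤ) (i : Fin 4) (A : ℤ) (hA : A ≠ 0) (x' y' : ℤ) (i' : Fin 4) (A' : ℤ)
    (hA' : A' ≠ 0) : Ov (rbar x y i A hA) (rbar x' y' i' A' hA') ↔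
      zov (zbar x y i A) (zbar x' y' i' A') = true := by
  simp only [Ov, zov, rbar_i, rbar_h, rbar_lo, rbar_hi, Int.cast_inj, Int.cast_lt,
    Bool.and_eq_true, decide_eq_true_eq]

/-- the vee of a polyline with integer data -/
noncomputable def Dat.vee (D : Dat) (hA : D.A ≠ 0) (hB : D.B ≠ 0) : Vee eR where
  bar := ![rbar D.x D.y D.i D.A hA, rbar D.x D.y D.j D.B hB]
  z := ((D.x : ℝ), (D.y : ℝ))
  on := by
    have key : ∀ (i : Fin 4) (A : ℤ) (h : A ≠ 0),
        (rbar D.x D.y i A h).On eR ((D.x : ℝ), (D.y : ℝ)) := by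
      intro i A h
      exact ⟨rfl, min_le_left _ _, le_max_left _ _⟩
    intro k
    fin_cases k
    · exact key D.i D.A hA
    · exact key D.j D.B hB

theorem Dat.vee_set (D : Dat) (hA : D.A ≠ 0) (hB : D.B ≠ 0) :
    carrier D.poly = (D.vee hA hB).set := by
  have key : ∀ (i : Fin 4) (A : ℤ) (h : A ≠ 0), (rbar D.x D.y i A h).set eR =
      segment ℝ ((D.x : ℝ), (D.y : ℝ)) (((D.x : ℝ), (D.y : ℝ)) + (A : ℝ) • eR i) := by
    intro i A h
    exact barOf_set (eR_ne i) (Int.cast_ne_zero.mpr h) rfl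
  simp only [Dat.poly, carrier, Dat.vee, Vee.set, Matrix.cons_val_zero, Matrix.cons_val_one,
    key, Set.union_empty]
  rw [segment_symm]

theorem Dat.vee_adj (D E : Dat) (hA : D.A ≠ 0) (hB : D.B ≠ 0) (hA' : E.A ≠ 0) (hB' : E.B ≠ 0) :
    Adj (D.vee hA hB) (E.vee hA' hB') ↔ D.ov E = true := by
  simp only [Adj, Dat.ov, Bool.or_eq_true, ← ov_rbar _ _ _ _ hA _ _ _ _ hA',
    ← ov_rbar _ _ _ _ hA _ _ _ _ hB', ← ov_rbar _ _ _ _ hB _ _ _ _ hA',
    ← ov_rbar _ _ _ _ hB _ _ _ _ hB']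
  constructor
  · rintro ⟨k, l, h⟩
    fin_cases k <;> fin_cases l
    · exact Or.inl h
    · exact Or.inr (Or.inl h)
    · exact Or.inr (Or.inr (Or.inl h))
    · exact Or.inr (Or.inr (Or.inr h))
  · rintro (h | h | h | h)
    · exact ⟨0, 0, h⟩
    · exact ⟨0, 1, h⟩
    · exact ⟨1, 0, h⟩
    · exact ⟨1, 1, h⟩

theorem Dat.inf_iff (D E : Dat) (hA : D.A ≠ 0) (hB : D.B ≠ 0) (hA' : E.A ≠ 0) (hB' : E.B ≠ 0) :
    (carrier D.poly ∩ carrier E.poly).Infinite ↔ D.ov E = true := by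
  rw [D.vee_set hA hB, E.vee_set hA' hB', vee_inf_iff eR_ne eR_phi, D.vee_adj]

theorem Dat.isPolyline (D : Dat) (hA : D.A ≠ 0) (hB : D.B ≠ 0) :
    IsPolyline (slopes eR) D.poly := by
  refine ⟨by simp [Dat.poly], ?_⟩
  simp only [Dat.poly, List.isChain_cons_cons, List.isChain_singleton, and_true]
  have hne : ∀ (i : Fin 4) (A : ℤ), A ≠ 0 → (A : ℝ) • eR i ≠ 0 := by
    intro i A h
    exact smul_ne_zero (Int.cast_ne_zero.mpr h) (eR_ne i)
  refine ⟨⟨?_, _, ⟨D.i, rfl⟩, ?_⟩, ⟨?_, _, ⟨D.j, rfl⟩, ?_⟩⟩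
  · intro h
    exact hne D.i D.A hA (by simpa using h)
  · rw [Submodule.mem_span_singleton]
    exact ⟨-(D.A : ℝ), by simp⟩
  · intro h
    exact hne D.j D.B hB (by simpa using h.symm)
  · rw [Submodule.mem_span_singleton]
    exact ⟨(D.B : ℝ), by simp⟩

theorem Dat.bends_le (D : Dat) : bends D.poly ≤ 1 := by
  simp only [Dat.poly, bends]
  split_ifs <;> omega

/-! ### The explicit data -/

/-- The vertices: three hosts `a`, three hosts `b`, and ten leaves for each pair. -/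
abbrev Vx : Type := Fin 3 ⊕ Fin 3 ⊕ (Fin 3 × Fin 3 × Fin 10)

/-- bend points of the hosts `a` -/
def aP : Fin 3 → ℤ × ℤ := ![(-48, 0), (-56, 8), (-16, -16)]

/-- bend points of the hosts `b` -/
def bP : Fin 3 → ℤ × ℤ := ![(0, -24), (8, -24), (32, -24)]

/-- crossing of the horizontal (`p = false`) or diagonal (`p = true`) line of host `a` number `i`
with the vertical (`q = false`) or antidiagonal (`q = true`) line of host `b` number `j` -/
def crossP (i j : Fin 3) : Bool → Bool → ℤ × ℤ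
  | false, false => ((bP j).1, (aP i).2)
  | false, true => ((bP j).1 + (bP j).2 - (aP i).2, (aP i).2)
  | true, false => ((bP j).1, (bP j).1 + ((aP i).2 - (aP i).1))
  | true, true => (((bP j).1 + (bP j).2 - ((aP i).2 - (aP i).1)) / 2,
      ((bP j).1 + (bP j).2 + ((aP i).2 - (aP i).1)) / 2)

/-- sign on the line of `a` -/
def sgA : Fin 10 → Bool := ![true, false, true, false, true, false, true, false, true, false]

/-- sign on the line of `b` -/
def sgB : Fin 10 → Bool := ![true, false, false, true, true, false, true, false, true, false]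

/-- signed length of the arm on the line of `a` -/
def lenA (j : Fin 3) (k : Fin 10) : ℤ :=
  match sgA k with
  | true => if k.val < 4 ∧ j = 0 then 5 else 1
  | false => if k.val < 4 ∧ j = 1 then -5 else -1

/-- signed length of the arm on the line of `b` -/
def lenB (i j : Fin 3) (k : Fin 10) : ℤ :=
  match sgB k with
  | true => if k.val < 4 ∧ ((i = 0 ∧ j ≠ 2) ∨ (i = 1 ∧ j = 2)) then 5 else 1
  | false => if k.val < 4 ∧ ((i = 1 ∧ j ≠ 2) ∨ (i = 0 ∧ j = 2)) then -5 else -1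

/-- the line of `a` used by leaf `k` -/
def typA (i : Fin 3) (k : Fin 10) : Bool := xor (decide (i = 2)) (decide (6 ≤ k.val))

/-- the line of `b` used by leaf `k` -/
def typB (j : Fin 3) (k : Fin 10) : Bool :=
  xor (decide (j = 2)) (decide (4 ≤ k.val ∧ k.val < 6 ∨ 8 ≤ k.val))

/-- the polyline data of the vertices -/
def dat : Vx → Dat
  | .inl i => ⟨(aP i).1, (aP i).2, 0, 200, 2, 200⟩
  | .inr (.inl j) => ⟨(bP j).1, (bP j).2, 1, 200, 3, -200⟩
  | .inr (.inr (i, j, k)) =>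
    ⟨(crossP i j (typA i k) (typB j k)).1, (crossP i j (typA i k) (typB j k)).2,
      (if typA i k then 2 else 0), lenA j k, (if typB j k then 3 else 1), lenB i j k⟩

theorem dat_A (v : Vx) : (dat v).A ≠ 0 := by
  rcases v with i | j | ⟨i, j, k⟩
  · simp [dat]
  · simp [dat]
  · simp only [dat]
    revert j k; decide

theorem dat_B (v : Vx) : (dat v).B ≠ 0 := by
  rcases v with i | j | ⟨i, j, k⟩
  · simp [dat]
  · simp [dat]
  · simp only [dat]
    revert i j k; decide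

/-- The graph: the intersection graph of the explicit polylines. -/
def G : SimpleGraph Vx where
  Adj u v := u ≠ v ∧ (carrier (dat u).poly ∩ carrier (dat v).poly).Infinite
  symm := ⟨fun u v h => ⟨h.1.symm, by rw [Set.inter_comm]; exact h.2⟩⟩
  loopless := ⟨fun u h => h.1 rfl⟩

theorem G_adj (u v : Vx) : G.Adj u v ↔ u ≠ v ∧ (dat u).ov (dat v) = true := by
  rw [← Dat.inf_iff _ _ (dat_A u) (dat_B u) (dat_A v) (dat_B v)]
  rfl

theorem G_hasRep (D : Set (Submodule ℝ (ℝ × ℝ))) (hD : slopes eR ⊆ D) : HasRep D G 1 := by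
  refine ⟨fun v => (dat v).poly, ?_, fun v => (dat v).bends_le, ?_⟩
  · intro v
    obtain ⟨h1, h2⟩ := (dat v).isPolyline (dat_A v) (dat_B v)
    refine ⟨h1, h2.imp ?_⟩
    rintro p q ⟨hpq, L, hL, hm⟩
    exact ⟨hpq, L, hD hL, hm⟩
  · intro u v huv
    exact ⟨fun h => h.2, fun h => ⟨huv, h⟩⟩

end Pool.Agent.D0H19.Bend
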