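import Mathlib

/-!
# Numerical model of one-bend polylines: pairs of bars
-/

namespace Pool.Agent.D0H19.Bend

/-- determinant of `u` and `z` -/
def phi (u z : ℝ × ℝ) : ℝ := u.1 * z.2 - u.2 * z.1

/-- scalar product of `u` and `z` -/
def psi (u z : ℝ × ℝ) : ℝ := u.1 * z.1 + u.2 * z.2

/-- A bar: a nondegenerate segment with direction number `i` on the line of level `h`. -/
structure Bar (ι : Type*) where
  i : ι
  h : ℝ
  lo : ℝ
  hi : ℝ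
  lt : lo < hi

variable {ι : Type*}

/-- The point `z` lies on the bar. -/
def Bar.On (d : ι → ℝ × ℝ) (A : Bar ι) (z : ℝ × ℝ) : Prop :=
  phi (d A.i) z = A.h ∧ A.lo ≤ psi (d A.i) z ∧ psi (d A.i) z ≤ A.hi

/-- same line -/
def SL (A B : Bar ι) : Prop := A.i = B.i ∧ A.h = B.h

/-- overlap in a segment of positive length -/
def Ov (A B : Bar ι) : Prop := A.i = B.i ∧ A.h = B.h ∧ A.lo < B.hi ∧ B.lo < A.hi

theorem Ov.symm {A B : Bar ι} (h : Ov A B) : Ov B A := ⟨h.1.symm, h.2.1.symm, h.2.2.2, h.2.2.1⟩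

theorem Ov.sl {A B : Bar ι} (h : Ov A B) : SL A B := ⟨h.1, h.2.1⟩

theorem SL.symm {A B : Bar ι} (h : SL A B) : SL B A := ⟨h.1.symm, h.2.symm⟩

theorem SL.trans {A B C : Bar ι} (h : SL A B) (h' : SL B C) : SL A C :=
  ⟨h.1.trans h'.1, h.2.trans h'.2⟩

theorem not_ov {A B : Bar ι} (h : ¬ Ov A B) (hs : SL A B) : B.hi ≤ A.lo ∨ A.hi ≤ B.lo := by
  by_contra hc
  push Not at hc
  exact h ⟨hs.1, hs.2, hc.1, hc.2⟩

/-- A pair of bars with a common point. -/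
structure Vee (d : ι → ℝ × ℝ) where
  bar : Fin 2 → Bar ι
  z : ℝ × ℝ
  on : ∀ k, (bar k).On d z

variable {d : ι → ℝ × ℝ}

/-- Two pairs of bars are adjacent if they share a segment of positive length. -/
def Adj (V W : Vee d) : Prop := ∃ k l, Ov (V.bar k) (W.bar l)

theorem Adj.symm {V W : Vee d} (h : Adj V W) : Adj W V := by
  obtain ⟨k, l, h⟩ := h
  exact ⟨l, k, h.symm⟩

theorem phi_sub (u z w : ℝ × ℝ) : phi u (z - w) = phi u z - phi u w := by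
  simp only [phi, Prod.fst_sub, Prod.snd_sub]; ring

theorem psi_sub (u z w : ℝ × ℝ) : psi u (z - w) = psi u z - psi u w := by
  simp only [psi, Prod.fst_sub, Prod.snd_sub]; ring

theorem cross_unique {u v z w : ℝ × ℝ} (h : phi u v ≠ 0) (h1 : phi u z = phi u w)
    (h2 : phi v z = phi v w) : z = w := by
  simp only [phi] at *
  have e1 : (u.1 * v.2 - u.2 * v.1) * (z.1 - w.1) = 0 := by linear_combination v.1 * h1 - u.1 * h2
  have e2 : (u.1 * v.2 - u.2 * v.1) * (z.2 - w.2) = 0 := by linear_combination v.2 * h1 - u.2 * h2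
  have f1 := (mul_eq_zero.mp e1).resolve_left h
  have f2 := (mul_eq_zero.mp e2).resolve_left h
  exact Prod.ext (by linarith) (by linarith)

theorem point_unique {u z w : ℝ × ℝ} (h : u ≠ 0) (h1 : phi u z = phi u w)
    (h2 : psi u z = psi u w) : z = w := by
  have hu : u.1 ^ 2 + u.2 ^ 2 ≠ 0 := by
    intro hc
    apply h
    have a1 : u.1 = 0 := by nlinarith [sq_nonneg u.1, sq_nonneg u.2]
    have a2 : u.2 = 0 := by nlinarith [sq_nonneg u.1, sq_nonneg u.2]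
    exact Prod.ext a1 a2
  simp only [phi, psi] at *
  have e1 : (u.1 ^ 2 + u.2 ^ 2) * (z.1 - w.1) = 0 := by linear_combination u.1 * h2 - u.2 * h1
  have e2 : (u.1 ^ 2 + u.2 ^ 2) * (z.2 - w.2) = 0 := by linear_combination u.2 * h2 + u.1 * h1
  have f1 := (mul_eq_zero.mp e1).resolve_left hu
  have f2 := (mul_eq_zero.mp e2).resolve_left hu
  exact Prod.ext (by linarith) (by linarith)

/-- the bars of `c` overlap bar `p` of `a` and bar `q` of `b` -/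
def Typ (a b c : Vee d) (p q : Fin 2) : Prop :=
  ∃ k l, Ov (c.bar k) (a.bar p) ∧ Ov (c.bar l) (b.bar q)

theorem Typ.symm {a b c : Vee d} {p q : Fin 2} (h : Typ a b c p q) : Typ b a c q p := by
  obtain ⟨k, l, h1, h2⟩ := h
  exact ⟨l, k, h2, h1⟩

theorem exists_typ {a b c : Vee d} (h1 : Adj c a) (h2 : Adj c b) : ∃ p q, Typ a b c p q := by
  obtain ⟨k, p, h1⟩ := h1
  obtain ⟨l, q, h2⟩ := h2
  exact ⟨p, q, k, l, h1, h2⟩

/-! ### One-dimensional lemmas -/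

/-- Three nondegenerate intervals containing a common point cannot be pairwise non-overlapping. -/
theorem oneD_cap {x l1 h1 l2 h2 l3 h3 : ℝ} (a1 : l1 < h1) (a2 : l2 < h2) (a3 : l3 < h3)
    (b1 : l1 ≤ x) (b1' : x ≤ h1) (b2 : l2 ≤ x) (b2' : x ≤ h2) (b3 : l3 ≤ x) (b3' : x ≤ h3)
    (n12 : h2 ≤ l1 ∨ h1 ≤ l2) (n13 : h3 ≤ l1 ∨ h1 ≤ l3) (n23 : h3 ≤ l2 ∨ h2 ≤ l3) : False := by
  rcases n12 with n12 | n12 <;> rcases n13 with n13 | n13 <;> rcases n23 with n23 | n23 <;>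
    linarith

/-- bridging two disjoint intervals -/
theorem oneD_bridge {la ha lb hb l1 h1 l2 h2 m1 k1 m2 k2 : ℝ}
    (s : l1 ≤ h2) (s' : l2 ≤ h1) (t : m1 ≤ k2) (t' : m2 ≤ k1)
    (o1 : l1 < ha) (o1' : la < h1) (o2 : l2 < hb) (o2' : lb < h2)
    (p1 : m1 < ha) (p1' : la < k1) (p2 : m2 < hb) (p2' : lb < k2)
    (a1 : l1 < h1) (c1 : m1 < k1)
    (nab : hb ≤ la ∨ ha ≤ lb)
    (n11 : k1 ≤ l1 ∨ h1 ≤ m1) (n12 : k2 ≤ l1 ∨ h1 ≤ m2)
    (n21 : k1 ≤ l2 ∨ h2 ≤ m1) (n22 : k2 ≤ l2 ∨ h2 ≤ m2) : False := by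
  rcases nab with nab | nab <;> rcases n11 with n11 | n11 <;> rcases n12 with n12 | n12 <;>
    rcases n21 with n21 | n21 <;> rcases n22 with n22 | n22 <;> linarith

theorem oneD_inner {x la ha l1 h1 l2 h2 : ℝ} (b1 : l1 ≤ x) (b1' : x ≤ h1)
    (b2 : l2 ≤ x) (b2' : x ≤ h2) (o1 : l1 < ha) (o1' : la < h1) (o2 : l2 < ha) (o2' : la < h2)
    (n : h2 ≤ l1 ∨ h1 ≤ l2) : la < x ∧ x < ha := by
  rcases n with n | n <;> constructor <;> linarith

theorem oneD_conc {x y l1 h1 l2 h2 l3 h3 l4 h4 : ℝ}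
    (a1 : l1 ≤ x) (a1' : x ≤ h1) (a2 : l2 ≤ x) (a2' : x ≤ h2)
    (a3 : l3 ≤ y) (a3' : y ≤ h3) (a4 : l4 ≤ y) (a4' : y ≤ h4)
    (n12 : h2 ≤ l1 ∨ h1 ≤ l2) (n14 : h4 ≤ l1 ∨ h1 ≤ l4) (n23 : h3 ≤ l2 ∨ h2 ≤ l3)
    (o13 : l1 < h3) (o13' : l3 < h1) (o24 : l2 < h4) (o24' : l4 < h2) : x = y := by
  rcases n12 with n12 | n12 <;> rcases n14 with n14 | n14 <;> rcases n23 with n23 | n23 <;>
    first
    | (exfalso; linarith)
    | (apply le_antisymm <;> linarith)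

theorem oneD_four {x y lc hc lw hw lo ho lc' hc' lw' hw' lo' ho' : ℝ}
    (tc : lc < hc) (tw : lw < hw) (tO : lo < ho) (tc' : lc' < hc') (tw' : lw' < hw')
    (to' : lo' < ho')
    (c1 : lc ≤ x) (c2 : x ≤ hc) (w1 : lw ≤ x) (w2 : x ≤ hw) (o1 : lo ≤ x) (o2 : x ≤ ho)
    (c1' : lc' ≤ y) (c2' : y ≤ hc') (w1' : lw' ≤ y) (w2' : y ≤ hw') (o1' : lo' ≤ y)
    (o2' : y ≤ ho')
    (nco : ho ≤ lc ∨ hc ≤ lo) (nwo : ho ≤ lw ∨ hw ≤ lo)
    (nco' : ho' ≤ lc' ∨ hc' ≤ lo') (nwo' : ho' ≤ lw' ∨ hw' ≤ lo')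
    (ncc : hc' ≤ lc ∨ hc ≤ lc') (nww : hw' ≤ lw ∨ hw ≤ lw')
    (v1 : lc < hw') (v2 : lw' < hc) (v3 : lc' < hw) (v4 : lw < hc') : False := by
  rcases nco with nco | nco <;> rcases nwo with nwo | nwo <;> rcases nco' with nco' | nco' <;>
    rcases nwo' with nwo' | nwo' <;> rcases ncc with ncc | ncc <;> rcases nww with nww | nww <;>
    linarith

end Pool.Agent.D0H19.Bend
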