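import Pool.Agent.D0H19.Bend.Defs
import Pool.Agent.D0H19.Bend.Vee

/-!
# From polylines with at most one bend to pairs of bars
-/

namespace Pool.Agent.D0H19.Bend

variable {ι : Type*} {d : ι → ℝ × ℝ}

theorem phi_self (u : ℝ × ℝ) : phi u u = 0 := by simp only [phi]; ring

theorem phi_add_smul (u p w : ℝ × ℝ) (t : ℝ) : phi u (p + t • w) = phi u p + t * phi u w := by
  simp only [phi, Prod.fst_add, Prod.snd_add, Prod.smul_fst, Prod.smul_snd, smul_eq_mul]; ring

theorem psi_add_smul (u p w : ℝ × ℝ) (t : ℝ) : psi u (p + t • w) = psi u p + t * psi u w := by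
  simp only [psi, Prod.fst_add, Prod.snd_add, Prod.smul_fst, Prod.smul_snd, smul_eq_mul]; ring

theorem psi_self_pos {u : ℝ × ℝ} (hu : u ≠ 0) : 0 < psi u u := by
  simp only [psi]
  have h1 : 0 ≤ u.1 * u.1 + u.2 * u.2 := by nlinarith [mul_self_nonneg u.1, mul_self_nonneg u.2]
  rcases h1.lt_or_eq with h | h
  · exact h
  · exfalso
    apply hu
    have a1 : u.1 = 0 := by nlinarith [mul_self_nonneg u.1, mul_self_nonneg u.2]
    have a2 : u.2 = 0 := by nlinarith [mul_self_nonneg u.1, mul_self_nonneg u.2]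
    exact Prod.ext a1 a2

theorem psi_ne {u p q : ℝ × ℝ} (hu : u ≠ 0) {t : ℝ} (ht : t ≠ 0) (h : q = p + t • u) :
    psi u p ≠ psi u q := by
  rw [h, psi_add_smul]
  intro e
  have : t * psi u u = 0 := by linarith
  exact mul_ne_zero ht (psi_self_pos hu).ne' this

theorem mem_segment_iff_bar {u p q z : ℝ × ℝ} (hu : u ≠ 0) {t : ℝ} (ht : t ≠ 0)
    (h : q = p + t • u) : z ∈ segment ℝ p q ↔
      phi u z = phi u p ∧ min (psi u p) (psi u q) ≤ psi u z ∧
        psi u z ≤ max (psi u p) (psi u q) := by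
  have hne := psi_ne hu ht h
  rw [segment_eq_image']
  constructor
  · rintro ⟨θ, ⟨h0, h1⟩, rfl⟩
    simp only
    refine ⟨?_, ?_, ?_⟩
    · rw [phi_add_smul, phi_sub, h, phi_add_smul, phi_self]; ring
    · rw [psi_add_smul, psi_sub]
      rcases le_total (psi u p) (psi u q) with hh | hh
      · rw [min_eq_left hh]; nlinarith
      · rw [min_eq_right hh]; nlinarith
    · rw [psi_add_smul, psi_sub]
      rcases le_total (psi u p) (psi u q) with hh | hh
      · rw [max_eq_right hh]; nlinarith
      · rw [max_eq_left hh]; nlinarith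
  · rintro ⟨e1, e2, e3⟩
    have hk : psi u q - psi u p ≠ 0 := sub_ne_zero.mpr hne.symm
    refine ⟨(psi u z - psi u p) / (psi u q - psi u p), ?_, ?_⟩
    · rcases le_total (psi u p) (psi u q) with hh | hh
      · rw [min_eq_left hh] at e2
        rw [max_eq_right hh] at e3
        have hpos : 0 < psi u q - psi u p := lt_of_le_of_ne (by linarith) hk.symm
        exact ⟨div_nonneg (by linarith) hpos.le, (div_le_one hpos).mpr (by linarith)⟩
      · rw [min_eq_right hh] at e2
        rw [max_eq_left hh] at e3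
        have hneg : psi u q - psi u p < 0 := lt_of_le_of_ne (by linarith) hk
        exact ⟨div_nonneg_of_nonpos (by linarith) hneg.le,
          (div_le_one_of_neg hneg).mpr (by linarith)⟩
    · apply point_unique hu
      · simp only
        rw [phi_add_smul, phi_sub, e1, h, phi_add_smul, phi_self]; ring
      · simp only
        rw [psi_add_smul, psi_sub, div_mul_cancel₀ _ hk]; ring

/-- the bar of a segment -/
def barOf (d : ι → ℝ × ℝ) (i : ι) (p q : ℝ × ℝ) (h : psi (d i) p ≠ psi (d i) q) : Bar ι where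
  i := i
  h := phi (d i) p
  lo := min (psi (d i) p) (psi (d i) q)
  hi := max (psi (d i) p) (psi (d i) q)
  lt := min_lt_max.mpr h

/-- the set of points of a bar -/
def Bar.set (d : ι → ℝ × ℝ) (A : Bar ι) : Set (ℝ × ℝ) := {z | A.On d z}

theorem barOf_set {i : ι} {p q : ℝ × ℝ} (hu : d i ≠ 0) {t : ℝ} (ht : t ≠ 0)
    (h : q = p + t • d i) : (barOf d i p q (psi_ne hu ht h)).set d = segment ℝ p q := by
  ext z
  rw [mem_segment_iff_bar hu ht h]
  rfl

/-- the point with given coordinates -/
theorem exists_point {u : ℝ × ℝ} (hu : u ≠ 0) (h t : ℝ) : ∃ z, phi u z = h ∧ psi u z = t := by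
  have hp := (psi_self_pos hu).ne'
  have hp' : u.1 ^ 2 + u.2 ^ 2 ≠ 0 := by
    simp only [psi] at hp
    intro e
    apply hp
    linarith
  refine ⟨((t * u.1 - h * u.2) / (u.1 ^ 2 + u.2 ^ 2), (t * u.2 + h * u.1) / (u.1 ^ 2 + u.2 ^ 2)),
    ?_, ?_⟩
  · simp only [phi]
    field_simp
    ring
  · simp only [psi]
    field_simp
    ring

theorem inf_iff (hd0 : ∀ i, d i ≠ 0) (hd : ∀ i j, i ≠ j → phi (d i) (d j) ≠ 0) (A B : Bar ι) :
    (A.set d ∩ B.set d).Infinite ↔ Ov A B := by
  constructor
  · intro hinf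
    by_contra hov
    apply hinf
    by_cases hi : A.i = B.i
    · by_cases hh : A.h = B.h
      · rcases not_ov hov ⟨hi, hh⟩ with hlt | hlt
        · apply Set.Subsingleton.finite
          rintro z ⟨hzA, hzB⟩ w ⟨hwA, hwB⟩
          simp only [Bar.set, Bar.On, Set.mem_ofPred_eq] at hzA hzB hwA hwB
          rw [← hi] at hzB hwB
          apply point_unique (hd0 A.i)
          · rw [hzA.1, hwA.1]
          · linarith [hzA.2.1, hzB.2.2, hwA.2.1, hwB.2.2]
        · apply Set.Subsingleton.finite
          rintro z ⟨hzA, hzB⟩ w ⟨hwA, hwB⟩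
          simp only [Bar.set, Bar.On, Set.mem_ofPred_eq] at hzA hzB hwA hwB
          rw [← hi] at hzB hwB
          apply point_unique (hd0 A.i)
          · rw [hzA.1, hwA.1]
          · linarith [hzA.2.2, hzB.2.1, hwA.2.2, hwB.2.1]
      · apply Set.Subsingleton.finite
        rintro z ⟨hzA, hzB⟩
        exfalso
        simp only [Bar.set, Bar.On, Set.mem_ofPred_eq] at hzA hzB
        rw [← hi] at hzB
        exact hh (hzA.1.symm.trans hzB.1)
    · apply Set.Subsingleton.finite
      rintro z ⟨hzA, hzB⟩ w ⟨hwA, hwB⟩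
      exact cross_unique (hd _ _ hi) (hzA.1.trans hwA.1.symm) (hzB.1.trans hwB.1.symm)
  · rintro ⟨hi, hh, h1, h2⟩
    have hlt : max A.lo B.lo < min A.hi B.hi := by
      rw [max_lt_iff, lt_min_iff, lt_min_iff]
      exact ⟨⟨A.lt, h1⟩, ⟨h2, B.lt⟩⟩
    choose f hf1 hf2 using fun t : ℝ => exists_point (hd0 A.i) A.h t
    have hinj : Function.Injective f := by
      intro s t hst
      rw [← hf2 s, ← hf2 t, hst]
    refine ((Set.Icc_infinite hlt).image hinj.injOn).mono ?_
    rintro _ ⟨t, ⟨ht1, ht2⟩, rfl⟩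
    rw [max_le_iff] at ht1
    rw [le_min_iff] at ht2
    constructor
    · exact ⟨hf1 t, by rw [hf2]; exact ht1.1, by rw [hf2]; exact ht2.1⟩
    · refine ⟨?_, ?_, ?_⟩
      · rw [← hi, hf1, hh]
      · rw [← hi, hf2]; exact ht1.2
      · rw [← hi, hf2]; exact ht2.2

/-- the set of points of a vee -/
def Vee.set (V : Vee d) : Set (ℝ × ℝ) := (V.bar 0).set d ∪ (V.bar 1).set d

theorem vee_inf_iff (hd0 : ∀ i, d i ≠ 0) (hd : ∀ i j, i ≠ j → phi (d i) (d j) ≠ 0)
    (V W : Vee d) : (V.set ∩ W.set).Infinite ↔ Adj V W := by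
  constructor
  · intro h
    by_contra hn
    apply h
    have hf : ∀ k l, ((V.bar k).set d ∩ (W.bar l).set d).Finite := by
      intro k l
      by_contra hc
      exact hn ⟨k, l, (inf_iff hd0 hd _ _).mp hc⟩
    have : V.set ∩ W.set = ((V.bar 0).set d ∩ (W.bar 0).set d ∪ (V.bar 0).set d ∩ (W.bar 1).set d)
        ∪ ((V.bar 1).set d ∩ (W.bar 0).set d ∪ (V.bar 1).set d ∩ (W.bar 1).set d) := by
      simp only [Vee.set]
      ext z
      simp only [Set.mem_inter_iff, Set.mem_union]
      tauto
    rw [this]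
    exact ((hf 0 0).union (hf 0 1)).union ((hf 1 0).union (hf 1 1))
  · rintro ⟨k, l, h⟩
    refine ((inf_iff hd0 hd _ _).mpr h).mono ?_
    have a1 : (V.bar k).set d ⊆ V.set := by
      fin_cases k
      · exact Set.subset_union_left
      · exact Set.subset_union_right
    have a2 : (W.bar l).set d ⊆ W.set := by
      fin_cases l
      · exact Set.subset_union_left
      · exact Set.subset_union_right
    exact Set.inter_subset_inter a1 a2

/-- the slope set given by direction vectors -/
def slopes (d : ι → ℝ × ℝ) : Set (Submodule ℝ (ℝ × ℝ)) := Set.range (fun i => Submodule.span ℝ {d i})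

theorem step_dir (p q : ℝ × ℝ) (h : p ≠ q ∧ ∃ L ∈ slopes d, q - p ∈ L) :
    ∃ i, ∃ t : ℝ, t ≠ 0 ∧ q = p + t • d i := by
  obtain ⟨hne, L, ⟨i, rfl⟩, hL⟩ := h
  obtain ⟨t, ht⟩ := Submodule.mem_span_singleton.mp hL
  refine ⟨i, t, ?_, ?_⟩
  · rintro rfl
    rw [zero_smul] at ht
    exact hne (sub_eq_zero.mp ht.symm).symm
  · rw [ht]; abel

/-- union of two bars on one line with a common point -/
theorem merge {A B : Bar ι} (hs : SL A B) {z : ℝ × ℝ} (hA : A.On d z) (hB : B.On d z) :
    ∃ C : Bar ι, SL C A ∧ C.set d = A.set d ∪ B.set d := by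
  obtain ⟨hi, hh⟩ := hs
  refine ⟨⟨A.i, A.h, min A.lo B.lo, max A.hi B.hi, ?_⟩, ⟨rfl, rfl⟩, ?_⟩
  · exact lt_of_le_of_lt (min_le_left _ _) (lt_of_lt_of_le A.lt (le_max_left _ _))
  · ext w
    simp only [Bar.On] at hA hB
    rw [← hi] at hB
    simp only [Bar.set, Bar.On, Set.mem_ofPred_eq, Set.mem_union]
    rw [← hi, ← hh]
    constructor
    · rintro ⟨e1, e2, e3⟩
      rw [min_le_iff] at e2
      rw [le_max_iff] at e3
      rcases e2 with e2 | e2 <;> rcases e3 with e3 | e3
      · exact Or.inl ⟨e1, e2, e3⟩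
      · rcases le_total (psi (d A.i) w) (psi (d A.i) z) with hw | hw
        · exact Or.inl ⟨e1, e2, hw.trans hA.2.2⟩
        · exact Or.inr ⟨e1, hB.2.1.trans hw, e3⟩
      · rcases le_total (psi (d A.i) w) (psi (d A.i) z) with hw | hw
        · exact Or.inr ⟨e1, e2, hw.trans hB.2.2⟩
        · exact Or.inl ⟨e1, hA.2.1.trans hw, e3⟩
      · exact Or.inr ⟨e1, e2, e3⟩
    · rintro (⟨e1, e2, e3⟩ | ⟨e1, e2, e3⟩)
      · exact ⟨e1, (min_le_left _ _).trans e2, e3.trans (le_max_left _ _)⟩
      · exact ⟨e1, (min_le_right _ _).trans e2, e3.trans (le_max_right _ _)⟩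

theorem collinear_phi {p q r u : ℝ × ℝ} {t : ℝ} (ht : t ≠ 0) (h : q = p + t • u)
    (hne : p ≠ q) (hc : Collinear ℝ {p, q, r}) : phi u q = phi u r := by
  rw [collinear_iff_of_mem (p₀ := q) (by simp)] at hc
  obtain ⟨v, hv⟩ := hc
  obtain ⟨s1, h1⟩ := hv p (by simp)
  obtain ⟨s2, h2⟩ := hv r (by simp)
  simp only [vadd_eq_add] at h1 h2
  have hs1 : s1 ≠ 0 := by
    rintro rfl
    rw [zero_smul, zero_add] at h1
    exact hne h1
  have e1 : phi u q = phi u p := by rw [h, phi_add_smul, phi_self]; ring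
  have e2 : phi u p = phi u q + s1 * phi u v := by
    rw [h1, add_comm, phi_add_smul]
  have e3 : phi u v = 0 := by
    have : s1 * phi u v = 0 := by linarith
    exact (mul_eq_zero.mp this).resolve_left hs1
  rw [h2, add_comm, phi_add_smul, e3]; ring

/-- **Polylines with at most one bend are pairs of bars.** -/
theorem poly_vee (hd0 : ∀ i, d i ≠ 0) (hd : ∀ i j, i ≠ j → phi (d i) (d j) ≠ 0)
    (l : List (ℝ × ℝ)) : ∀ p q : ℝ × ℝ,
      (p :: q :: l).IsChain (fun p q => p ≠ q ∧ ∃ L ∈ slopes d, q - p ∈ L) →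
      bends (p :: q :: l) ≤ 1 →
      ∃ V : Vee d, carrier (p :: q :: l) = V.set ∧ (V.bar 0).On d p ∧ (V.bar 0).On d q ∧
        (bends (p :: q :: l) = 0 → V.bar 1 = V.bar 0) := by
  induction l with
  | nil =>
    intro p q hch _
    rw [List.isChain_cons_cons] at hch
    obtain ⟨i, t, ht, hq⟩ := step_dir p q hch.1
    have hB := barOf_set (hd0 i) ht hq
    set B := barOf d i p q (psi_ne (hd0 i) ht hq) with hBdef
    have hp : B.On d p := by
      have : p ∈ B.set d := by rw [hB]; exact left_mem_segment ℝ p q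
      exact this
    have hq' : B.On d q := by
      have : q ∈ B.set d := by rw [hB]; exact right_mem_segment ℝ p q
      exact this
    refine ⟨⟨fun _ => B, p, fun _ => hp⟩, ?_, hp, hq', fun _ => rfl⟩
    simp only [carrier, Vee.set, hB, Set.union_empty, Set.union_self]
  | cons r l ih =>
    intro p q hch hbe
    rw [List.isChain_cons_cons] at hch
    obtain ⟨i, t, ht, hq⟩ := step_dir p q hch.1
    have hqr : q ≠ r := by
      have := hch.2
      rw [List.isChain_cons_cons] at this
      exact this.1.1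
    have hB := barOf_set (hd0 i) ht hq
    set B := barOf d i p q (psi_ne (hd0 i) ht hq) with hBdef
    have hBi : B.i = i := rfl
    have hBh : B.h = phi (d i) p := rfl
    have hp : B.On d p := by
      have : p ∈ B.set d := by rw [hB]; exact left_mem_segment ℝ p q
      exact this
    have hq' : B.On d q := by
      have : q ∈ B.set d := by rw [hB]; exact right_mem_segment ℝ p q
      exact this
    have hbe' : bends (q :: r :: l) ≤ 1 := by
      simp only [bends] at hbe
      omega
    obtain ⟨V, hV, hVq, hVr, hV0⟩ := ih q r hch.2 hbe'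
    have hcar : carrier (p :: q :: r :: l) = B.set d ∪ V.set := by
      rw [hB, ← hV]; rfl
    by_cases hcol : Collinear ℝ {p, q, r}
    · have hphi := collinear_phi ht hq hch.1.1 hcol
      have hbb : bends (p :: q :: r :: l) = bends (q :: r :: l) := by
        simp only [bends, if_pos hcol, zero_add]
      have hdir : B.i = (V.bar 0).i := by
        by_contra hne
        exact hqr (cross_unique (hd _ _ hne) hphi (hVq.1.trans hVr.1.symm))
      have hh : B.h = (V.bar 0).h := by
        rw [← hq'.1, ← hVq.1, hdir]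
      obtain ⟨C, hCs, hC⟩ := merge ⟨hdir, hh⟩ hq' hVq
      have hCp : C.On d p := by
        have : p ∈ C.set d := by rw [hC]; exact Or.inl hp
        exact this
      have hCq : C.On d q := by
        have : q ∈ C.set d := by rw [hC]; exact Or.inl hq'
        exact this
      by_cases h0 : bends (q :: r :: l) = 0
      · refine ⟨⟨fun _ => C, p, fun _ => hCp⟩, ?_, hCp, hCq, fun _ => rfl⟩
        rw [hcar]
        simp only [Vee.set, hV0 h0, Set.union_self, hC]
      · have hCz : C.On d V.z := by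
          have : V.z ∈ C.set d := by rw [hC]; exact Or.inr (V.on 0)
          exact this
        refine ⟨⟨![C, V.bar 1], V.z, ?_⟩, ?_, hCp, hCq, ?_⟩
        · intro k
          fin_cases k
          · exact hCz
          · exact V.on 1
        · rw [hcar]
          simp only [Vee.set, Matrix.cons_val_zero, Matrix.cons_val_one, hC,
            Set.union_assoc]
        · intro h
          rw [hbb] at h
          exact absurd h h0
    · have h0 : bends (q :: r :: l) = 0 := by
        simp only [bends, if_neg hcol] at hbe ⊢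
        omega
      have h1 : bends (p :: q :: r :: l) ≠ 0 := by
        simp only [bends, if_neg hcol]
        omega
      refine ⟨⟨![B, V.bar 0], q, ?_⟩, ?_, hp, hq', fun h => absurd h h1⟩
      · intro k
        fin_cases k
        · exact hq'
        · exact hVq
      · rw [hcar]
        simp only [Vee.set, Matrix.cons_val_zero, Matrix.cons_val_one, hV0 h0, Set.union_self]

theorem exists_vee (hd0 : ∀ i, d i ≠ 0) (hd : ∀ i j, i ≠ j → phi (d i) (d j) ≠ 0)
    (l : List (ℝ × ℝ)) (hl : IsPolyline (slopes d) l) (hb : bends l ≤ 1) :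
    ∃ V : Vee d, carrier l = V.set := by
  match l, hl, hb with
  | [], hl, _ => exact absurd hl.1 (by simp)
  | [_], hl, _ => exact absurd hl.1 (by simp)
  | p :: q :: l, hl, hb =>
    obtain ⟨V, hV, -⟩ := poly_vee hd0 hd l p q hl.2 hb
    exact ⟨V, hV⟩

end Pool.Agent.D0H19.Bend
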